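import Pool.Agent.D0H24.UT.Blk

/-!
# Asymptotic form of the expected number
-/

set_option autoImplicit false

namespace Pool.Agent.D0H24.UT

open Finset Filter
open Pool.Agent.D0H60.RMG (W W_pos W_ge W_mono dn Rough dn_nonneg dn_le W_bound)

lemma tlog : Tendsto (fun n : ℕ => Real.log (n : ℝ)) atTop atTop :=
  Real.tendsto_log_atTop.comp tendsto_natCast_atTop_atTop

lemma tloglog : Tendsto (fun n : ℕ => Real.log (Real.log (n : ℝ))) atTop atTop :=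
  Real.tendsto_log_atTop.comp tlog

/-- `W` at small arguments -/
lemma W_small : ∀ᶠ n : ℕ in atTop, ∀ k : ℕ, (k : ℝ) ≤ Real.log n → W k ≤ Real.log n := by
  obtain ⟨C₁, C₂, h1, h2, hW⟩ := W_bound
  have h3 : ∀ᶠ t : ℝ in atTop, C₁ + C₂ * Real.log t ≤ t := by
    have := (Real.isLittleO_log_id_atTop).bound (show (0 : ℝ) < 1 / (2 * C₂) by positivity)
    filter_upwards [this, eventually_ge_atTop (2 * C₁), eventually_ge_atTop 1] with t ht1 ht2 ht3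
    rw [Real.norm_eq_abs, Real.norm_eq_abs, id, abs_of_nonneg (Real.log_nonneg ht3),
      abs_of_nonneg (by linarith)] at ht1
    have h4 : C₂ * Real.log t ≤ C₂ * (1 / (2 * C₂) * t) := mul_le_mul_of_nonneg_left ht1 h2.le
    have h5 : C₂ * (1 / (2 * C₂) * t) = t / 2 := by
      field_simp
    linarith
  filter_upwards [tlog.eventually h3, tlog.eventually_ge_atTop 1] with n hn hn1 k hk
  refine (hW k).trans (le_trans ?_ hn)
  rcases Nat.eq_zero_or_pos k with h | h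
  · rw [h]
    simp only [Nat.cast_zero, Real.log_zero, mul_zero, add_zero]
    have := mul_nonneg h2.le (Real.log_nonneg hn1)
    linarith
  · have h0 : (0 : ℝ) < k := by exact_mod_cast h
    have := mul_le_mul_of_nonneg_left (Real.log_le_log h0 hk) h2.le
    linarith

lemma prod_pr_le (n : ℕ) : ∏ p ∈ pr n, p ≤ 4 ^ n := by
  have h := primorial_le_four_pow n
  unfold primorial at h
  refine le_trans (le_of_eq ?_) h
  apply prod_congr _ fun _ _ => rfl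
  ext p
  rw [mem_pr, mem_filter, mem_range]
  constructor
  · rintro ⟨h1, h2⟩
    exact ⟨by omega, h1⟩
  · rintro ⟨h1, h2⟩
    exact ⟨h2, by omega⟩

lemma four_pow_le (x : ℕ) (hx : 1 ≤ x) (n : ℕ) (hn : (n : ℝ) ≤ 6 / 10 * Real.log x) :
    (4 : ℝ) ^ n ≤ (x : ℝ) ^ (17 / 20 : ℝ) := by
  have hx0 : (0 : ℝ) < x := by exact_mod_cast hx
  have hlog : 0 ≤ Real.log (x : ℝ) := Real.log_natCast_nonneg x
  have h1 : (4 : ℝ) ^ n = Real.exp (n * Real.log 4) := by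
    rw [Real.exp_nat_mul, Real.exp_log (by norm_num)]
  rw [h1, Real.rpow_def_of_pos hx0]
  apply Real.exp_le_exp.2
  have h2 : Real.log 4 ≤ 1.3864 := by
    have : Real.log 4 = 2 * Real.log 2 := by
      rw [show (4 : ℝ) = 2 ^ 2 by norm_num, Real.log_pow]
      norm_num
    rw [this]
    linarith [Real.log_two_lt_d9]
  have h3 : 0 ≤ Real.log 4 := Real.log_nonneg (by norm_num)
  calc (n : ℝ) * Real.log 4 ≤ (6 / 10 * Real.log x) * 1.3864 := mul_le_mul hn h2 h3 (by positivity)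
    _ ≤ Real.log x * (17 / 20) := by nlinarith

/-- powers of `x` and of its logarithm -/
lemma rpow_log_le (K : ℕ) (c s t : ℝ) (hst : s < t) :
    ∀ᶠ x : ℕ in atTop, c * Real.log x ^ K * (x : ℝ) ^ s ≤ (x : ℝ) ^ t := by
  filter_upwards [log_pow_le K c (t - s) (by linarith), eventually_ge_atTop 1] with x hx hx1
  have hx0 : (0 : ℝ) < x := by exact_mod_cast hx1
  have h1 := mul_le_mul_of_nonneg_right hx (Real.rpow_nonneg hx0.le s)
  rw [← Real.rpow_add hx0] at h1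
  have e : t - s + s = t := by ring
  rw [e] at h1
  exact h1

lemma fin_algebra (x Λ ε g Rlo Rhi E' d : ℝ) (l : ℕ) (hx : 0 < x) (hε : 0 < ε) (hΛ : 1 ≤ Λ ^ l) (hg : 1 ≤ g)
    (hη2 : 1 - ε / 2 ≤ 1 / g) (hRlo : 0 ≤ Rlo) (hE0 : 0 ≤ E') (hd0 : 0 ≤ d)
    (hE : E' ≤ ε / 4 * (x / Λ ^ l)) (hd : d ≤ ε / 4 * (x / Λ ^ l)) :
    (x / Λ ^ l) * ((1 - ε) * Rlo - ε) ≤ ((x - d) * Rlo - E') / (g * Λ ^ l) ∧
      (x * Rhi + E') / Λ ^ l + d ≤ (x / Λ ^ l) * (Rhi + ε) := by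
  obtain ⟨v, hv⟩ : ∃ v : ℝ, v = Λ ^ l := ⟨_, rfl⟩
  rw [← hv] at hΛ hE hd ⊢
  have hv0 : 0 < v := by linarith
  obtain ⟨M, hM⟩ : ∃ M : ℝ, M = x / v := ⟨_, rfl⟩
  rw [← hM] at hE hd ⊢
  have hM0 : 0 < M := by
    rw [hM]
    positivity
  have h2 : E' / v ≤ ε / 4 * M := by
    rw [div_le_iff₀ hv0]
    have h3 : ε / 4 * M ≤ ε / 4 * M * v := le_mul_of_one_le_right (by positivity) hΛ
    linarith
  constructor
  · obtain ⟨κ, hκ⟩ : ∃ κ : ℝ, κ = 1 / g := ⟨_, rfl⟩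
    have hκ0 : 0 < κ := by
      rw [hκ]
      positivity
    have hκ1 : κ ≤ 1 := by
      rw [hκ, div_le_one (by positivity)]
      exact hg
    rw [← hκ] at hη2
    have hκ2 : 1 - ε ≤ κ * (1 - ε / 4) := by
      rcases le_total 0 (1 - ε / 4) with h | h
      · have := mul_le_mul_of_nonneg_right hη2 h
        have h2 : 0 ≤ ε / 2 * (ε / 4) := by positivity
        linarith
      · have := mul_le_mul_of_nonpos_right hκ1 h
        linarith
    have e : ((x - d) * Rlo - E') / (g * v) = κ * (M * Rlo - d * Rlo / v - E' / v) := by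
      rw [hκ, hM]
      field_simp
    rw [e]
    have h1 : d * Rlo / v ≤ ε / 4 * M * Rlo := by
      rw [div_le_iff₀ hv0]
      have h2 : d * Rlo ≤ ε / 4 * M * Rlo := mul_le_mul_of_nonneg_right hd hRlo
      have h3 : ε / 4 * M * Rlo ≤ ε / 4 * M * Rlo * v := le_mul_of_one_le_right (by positivity) hΛ
      linarith
    have h3 : κ * (M * Rlo * (1 - ε / 4) - ε / 4 * M) ≤ κ * (M * Rlo - d * Rlo / v - E' / v) :=
      mul_le_mul_of_nonneg_left (by linarith) hκ0.le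
    refine le_trans ?_ h3
    have h4 : (1 - ε) * (M * Rlo) ≤ κ * (1 - ε / 4) * (M * Rlo) :=
      mul_le_mul_of_nonneg_right hκ2 (by positivity)
    have h5 : κ * (ε / 4 * M) ≤ 1 * (ε / 4 * M) := mul_le_mul_of_nonneg_right hκ1 (by positivity)
    have h6 : 0 ≤ ε * M := by positivity
    linarith
  · rw [add_div]
    have h4 : x * Rhi / v = M * Rhi := by
      rw [hM]
      ring
    rw [h4]
    have h5 : 0 ≤ ε * M := by positivity
    linarith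

/-- the asymptotic evaluation -/
theorem Ed_asym (z : ℕ → ℕ) (hz : Monotone z) (hz2 : ∀ᶠ n : ℕ in atTop, (z n : ℝ) ≤ Real.log n / 2)
    (C l : ℕ) (ε : ℝ) (hε : 0 < ε) : ∀ᶠ x : ℕ in atTop, ∀ T : Finset ℕ,
      (∀ r ∈ T, 1 ≤ r ∧ (r : ℝ) ≤ Real.log x ^ C) → T.card = l → ∀ Rlo Rhi : ℝ, 0 ≤ Rlo → 0 ≤ Rhi →
      (∀ a Zm, x ≤ a → a < 2 * x → (∀ r ∈ T, z (a * r + 1) ≤ Zm) → Rlo ≤ Rb z T a Zm ∧ Rb z T a Zm ≤ Rhi) →
      (x / Real.log x ^ l) * ((1 - ε) * Rlo - ε) ≤ Ed z T x (2 * x) ∧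
      Ed z T x (2 * x) ≤ (x / Real.log x ^ l) * (Rhi + ε) := by
  -- the parameter for the logarithms
  obtain ⟨η, hη0, hη1, hη2⟩ : ∃ η : ℝ, 0 < η ∧ η ≤ 1 / 5 ∧ 1 - ε / 2 ≤ 1 / (1 + η) ^ l := by
    have t1 : Tendsto (fun η : ℝ => 1 / (1 + η) ^ l) (nhds 0) (nhds (1 / (1 + 0) ^ l)) := by
      have : ContinuousAt (fun η : ℝ => 1 / (1 + η) ^ l) 0 := by
        apply ContinuousAt.div continuousAt_const (by fun_prop)
        simp
      exact this.tendsto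
    have e : (1 : ℝ) / (1 + 0) ^ l = 1 := by simp
    rw [e] at t1
    have t2 : ∀ᶠ η in nhdsWithin (0 : ℝ) (Set.Ioi 0), 1 - ε / 2 ≤ 1 / (1 + η) ^ l := by
      apply (t1.mono_left nhdsWithin_le_nhds).eventually
      filter_upwards [lt_mem_nhds (show 1 - ε / 2 < (1 : ℝ) by linarith)] with t ht
      exact ht.le
    have t3 : ∀ᶠ η in nhdsWithin (0 : ℝ) (Set.Ioi 0), η ≤ 1 / 5 :=
      nhdsWithin_le_nhds (by
        filter_upwards [gt_mem_nhds (show (0 : ℝ) < 1 / 5 by norm_num)] with t ht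
        exact ht.le)
    obtain ⟨η, ⟨h1, h2⟩, h3⟩ := ((t2.and t3).and self_mem_nhdsWithin).exists
    exact ⟨η, h3, h2, h1⟩
  obtain ⟨n₁, hn₁⟩ := eventually_atTop.1 hz2
  obtain ⟨n₂, hn₂⟩ := eventually_atTop.1 W_small
  filter_upwards [log_pow_le C 3 η hη0, log_pow_le (l + 3) 4 1 one_pos, rpow_log_le (2 * l + 3) 4 (17 / 20) (9 / 10) (by norm_num),
    rpow_log_le l (4 / ε) (9 / 10) 1 (by norm_num), tlog.eventually_ge_atTop (4 * (l + 1) / ε + 1),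
    eventually_ge_atTop (n₁ + n₂ + 2)] with x e1 e2 e3 e4 e5 e6 T hT hTl Rlo Rhi hRlo hRhi hR
  have hx1 : (2 : ℝ) ≤ x := by
    have : 2 ≤ x := by omega
    exact_mod_cast this
  have hx0 : (0 : ℝ) < x := by linarith
  set Λ := Real.log (x : ℝ) with hΛ
  have hΛ1 : 1 ≤ Λ := by
    have : 0 ≤ 4 * ((l : ℝ) + 1) / ε := by positivity
    linarith
  have hΛ0 : 0 < Λ := by linarith
  have hpow1 : ∀ k : ℕ, 1 ≤ Λ ^ k := fun k => one_le_pow₀ hΛ1
  -- the logarithms of the members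
  have hmem : ∀ r ∈ T, ∀ q : ℕ, x ≤ q → q ≤ 2 * x → Λ ≤ Real.log (q * r + 1 : ℕ) ∧
      Real.log (q * r + 1 : ℕ) ≤ (1 + η) * Λ := by
    intro r hr q hq1 hq2
    obtain ⟨hr1, hr2⟩ := hT r hr
    constructor
    · apply Real.log_le_log hx0
      have : x ≤ q * r + 1 := by nlinarith
      exact_mod_cast this
    · have h1 : ((q * r + 1 : ℕ) : ℝ) ≤ (x : ℝ) ^ (1 + η) := by
        rw [Real.rpow_add hx0, Real.rpow_one]
        have h2 : (q : ℝ) ≤ 2 * x := by exact_mod_cast hq2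
        have h3 : (q : ℝ) * r ≤ 2 * x * Λ ^ C := mul_le_mul h2 hr2 (Nat.cast_nonneg _) (by positivity)
        have h4 : (1 : ℝ) ≤ x * Λ ^ C := by nlinarith [hpow1 C]
        push_cast
        calc (q : ℝ) * r + 1 ≤ x * (3 * Λ ^ C) := by linarith
          _ ≤ _ := mul_le_mul_of_nonneg_left e1 hx0.le
      have h2 := Real.log_le_log (by positivity) h1
      rwa [Real.log_rpow hx0] at h2
  have hmemx : ∀ r ∈ T, ∀ q : ℕ, x ≤ q → x ≤ q * r + 1 := by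
    intro r hr q hq1
    have := (hT r hr).1
    nlinarith
  -- the threshold
  set Zm := ⌊6 / 10 * Λ⌋₊ with hZm
  have hZmr : (Zm : ℝ) ≤ 6 / 10 * Λ := Nat.floor_le (by positivity)
  have hzle : ∀ r ∈ T, ∀ q : ℕ, x ≤ q → q ≤ 2 * x → z (q * r + 1) ≤ Zm := by
    intro r hr q hq1 hq2
    apply Nat.le_floor
    have h1 := hn₁ (q * r + 1) (by have := hmemx r hr q hq1; omega)
    have h2 := (hmem r hr q hq1 hq2).2
    have h3 : (1 + η) * Λ ≤ 12 / 10 * Λ := mul_le_mul_of_nonneg_right (by linarith) hΛ0.le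
    linarith
  have hdn : ∀ r ∈ T, ∀ q ∈ Ico x (2 * x), dn z (q * r + 1) ≤ 1 := by
    intro r hr q hq
    rw [mem_Ico] at hq
    have h0 := hmemx r hr q hq.1
    have h1 := hn₁ (q * r + 1) (by omega)
    have h4 := (hmem r hr q hq.1 hq.2.le).1
    have h2 := hn₂ (q * r + 1) (by omega) (z (q * r + 1)) (by linarith)
    refine (dn_le z _).trans ?_
    rw [div_le_one (by linarith)]
    exact h2
  -- the length of the blocks
  set H := ⌊(x : ℝ) / Λ ^ (l + 3)⌋₊ with hH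
  have e2' : 4 * Λ ^ (l + 3) ≤ x := by rw [Real.rpow_one] at e2; exact e2
  have hquot : 4 ≤ (x : ℝ) / Λ ^ (l + 3) := by
    rw [le_div_iff₀ (by positivity)]
    exact e2'
  have hHr : (H : ℝ) ≤ (x : ℝ) / Λ ^ (l + 3) := Nat.floor_le (by linarith)
  have hHr2 : (x : ℝ) / Λ ^ (l + 3) / 2 ≤ H := by
    have := Nat.lt_floor_add_one ((x : ℝ) / Λ ^ (l + 3))
    rw [← hH] at this
    linarith
  have hH1 : 1 ≤ H := by
    have : (1 : ℝ) ≤ H := by linarith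
    exact_mod_cast this
  have hH0 : (0 : ℝ) < H := by exact_mod_cast hH1
  have htot := tot z hz T x H Zm hH1 (fun r hr => hzle r hr (2 * x) (by omega) le_rfl) Λ ((1 + η) * Λ) hΛ0
    (by positivity) (fun r hr q hq => by
      rw [mem_Ico] at hq
      exact hmem r hr q hq.1 hq.2.le) hdn Rlo Rhi hRlo hRhi
    (fun a ha1 ha2 => hR a Zm ha1 ha2 fun r hr => hzle r hr a ha1 ha2.le)
  rw [hTl] at htot
  -- the error terms
  have hJ : ((x / H : ℕ) : ℝ) ≤ 2 * Λ ^ (l + 3) := by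
    have h1 : ((x / H : ℕ) : ℝ) ≤ (x : ℝ) / H := Nat.cast_div_le
    refine h1.trans ?_
    rw [div_le_iff₀ hH0]
    have h2 : 2 * Λ ^ (l + 3) * ((x : ℝ) / Λ ^ (l + 3) / 2) ≤ 2 * Λ ^ (l + 3) * H :=
      mul_le_mul_of_nonneg_left hHr2 (by positivity)
    have h3 : 2 * Λ ^ (l + 3) * ((x : ℝ) / Λ ^ (l + 3) / 2) = x := by
      field_simp
    linarith
  have hP : ((∏ p ∈ pr Zm, p : ℕ) : ℝ) ≤ (x : ℝ) ^ (17 / 20 : ℝ) := by
    have h1 : ((∏ p ∈ pr Zm, p : ℕ) : ℝ) ≤ (4 : ℝ) ^ Zm := by exact_mod_cast prod_pr_le Zm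
    exact h1.trans (four_pow_le x (by omega) Zm hZmr)
  have hW : W Zm ^ l ≤ Λ ^ l := pow_le_pow_left₀ (W_pos _).le (hn₂ x (by omega) Zm (by linarith)) l
  have hErr : ((x / H : ℕ) : ℝ) * (2 * ((∏ p ∈ pr Zm, p : ℕ) : ℝ) * W Zm ^ l) ≤ (x : ℝ) ^ (9 / 10 : ℝ) := by
    have hP0 : (0 : ℝ) ≤ ((∏ p ∈ pr Zm, p : ℕ) : ℝ) := Nat.cast_nonneg _
    have hx17 : (0 : ℝ) ≤ (x : ℝ) ^ (17 / 20 : ℝ) := Real.rpow_nonneg hx0.le _
    calc ((x / H : ℕ) : ℝ) * (2 * ((∏ p ∈ pr Zm, p : ℕ) : ℝ) * W Zm ^ l) ≤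
        (2 * Λ ^ (l + 3)) * (2 * (x : ℝ) ^ (17 / 20 : ℝ) * Λ ^ l) := by
          apply mul_le_mul hJ _ _ (by positivity)
          · exact mul_le_mul (by linarith) hW (pow_nonneg (W_pos _).le _) (by positivity)
          · exact mul_nonneg (by linarith) (pow_nonneg (W_pos _).le _)
      _ = 4 * Λ ^ (2 * l + 3) * (x : ℝ) ^ (17 / 20 : ℝ) := by ring
      _ ≤ _ := e3
  have hErr2 : (x : ℝ) ^ (9 / 10 : ℝ) ≤ ε / 4 * (x / Λ ^ l) := by
    rw [Real.rpow_one] at e4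
    rw [mul_div_assoc', le_div_iff₀ (by positivity)]
    have h1 : 4 / ε * Λ ^ l * (x : ℝ) ^ (9 / 10 : ℝ) = 4 / ε * ((x : ℝ) ^ (9 / 10 : ℝ) * Λ ^ l) := by ring
    rw [h1, div_mul_eq_mul_div, div_le_iff₀ hε] at e4
    linarith
  have hErr3 : ((l : ℝ) * Zm + 1) * H ≤ ε / 4 * (x / Λ ^ l) := by
    have h1 : (l : ℝ) * Zm + 1 ≤ (l + 1) * Λ := by
      have h2 : (l : ℝ) * Zm ≤ l * Λ := mul_le_mul_of_nonneg_left (by linarith) (Nat.cast_nonneg _)
      linarith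
    have h3 : ((l : ℝ) * Zm + 1) * H ≤ ((l + 1) * Λ) * ((x : ℝ) / Λ ^ (l + 3)) :=
      mul_le_mul h1 hHr hH0.le (by positivity)
    refine h3.trans ?_
    have h4 : ((l : ℝ) + 1) * Λ * ((x : ℝ) / Λ ^ (l + 3)) = (x / Λ ^ l) * ((l + 1) / Λ ^ 2) := by
      rw [pow_add]
      field_simp
    rw [h4, mul_comm]
    apply mul_le_mul_of_nonneg_right _ (by positivity)
    rw [div_le_iff₀ (by positivity)]
    have h5 : 4 * ((l : ℝ) + 1) ≤ ε * Λ := by
      have : 4 * ((l : ℝ) + 1) / ε ≤ Λ := by linarith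
      rw [div_le_iff₀ hε] at this
      linarith
    have h6 : ε * Λ ≤ ε * Λ ^ 2 := by
      apply mul_le_mul_of_nonneg_left _ hε.le
      nlinarith
    linarith
  have hM0 : 0 < (x : ℝ) / Λ ^ l := by positivity
  have hη1l : (1 : ℝ) ≤ (1 + η) ^ l := one_le_pow₀ (by linarith only [hη0])
  have hfin := fin_algebra (x : ℝ) Λ ε ((1 + η) ^ l) Rlo Rhi (((x / H : ℕ) : ℝ) * (2 * ((∏ p ∈ pr Zm, p : ℕ) : ℝ) * W Zm ^ l))
    (((l : ℝ) * Zm + 1) * H) l hx0 hε (hpow1 l) hη1l hη2 hRlo (by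
      have := (W_pos Zm).le
      positivity) (by positivity) (hErr.trans hErr2) hErr3
  rw [mul_pow] at htot
  exact ⟨hfin.1.trans htot.1, htot.2.trans hfin.2⟩

end Pool.Agent.D0H24.UT
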