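import Mathlib
import Pool.Agent.R528.RM.Gold

/-!
# Tuples of dilates in sequential random models
-/

set_option autoImplicit false
set_option linter.unusedSectionVars false

open MeasureTheory Filter Set
open scoped ENNReal Topology

namespace Pool.Agent.D0H24.UT

open Pool.Agent.R528.RM

variable {Ω : Type} {m0 : MeasurableSpace Ω} {μ : Measure Ω} [IsProbabilityMeasure μ]
  {ℱ : Filtration ℕ m0} {A : ℕ → Set Ω}

/-- mixed sums: true indicators at the dilates of `L`, expected values at the dilates of `U` -/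
noncomputable def TD (A : ℕ → Set Ω) (ρ : ℕ → ℝ) (a b : ℕ) (L U : Finset ℕ) (ω : Ω) : ℝ :=
  ∑ q ∈ Finset.Ico a b, (∏ h ∈ L, In A (q * h + 1) ω) * ∏ h ∈ U, ρ (q * h + 1)

/-- the weight at `q` -/
noncomputable def wq (A : ℕ → Set Ω) (ρ : ℕ → ℝ) (H : Finset ℕ) (g q : ℕ) (ω : Ω) : ℝ :=
  (∏ h ∈ H.filter (· < g), In A (q * h + 1) ω) * ∏ h ∈ H.filter (g < ·), ρ (q * h + 1)

lemma wq_01 {ρ : ℕ → ℝ} (hρ : ∀ n, 0 ≤ ρ n ∧ ρ n ≤ 1) (H : Finset ℕ) (g q : ℕ) (ω : Ω) :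
    0 ≤ wq A ρ H g q ω ∧ wq A ρ H g q ω ≤ 1 := by
  unfold wq
  have h1 : 0 ≤ ∏ h ∈ H.filter (· < g), In A (q * h + 1) ω := Finset.prod_nonneg fun h _ => In_nonneg _ _
  have h2 : ∏ h ∈ H.filter (· < g), In A (q * h + 1) ω ≤ 1 := Finset.prod_le_one (fun h _ => In_nonneg _ _) fun h _ => In_le _ _
  have h3 : 0 ≤ ∏ h ∈ H.filter (g < ·), ρ (q * h + 1) := Finset.prod_nonneg fun h _ => (hρ _).1
  have h4 : ∏ h ∈ H.filter (g < ·), ρ (q * h + 1) ≤ 1 := Finset.prod_le_one (fun h _ => (hρ _).1) fun h _ => (hρ _).2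
  exact ⟨mul_nonneg h1 h3, mul_le_one₀ h2 h3 h4⟩

open Classical in
/-- the weights of the martingale -/
noncomputable def wd (A : ℕ → Set Ω) (ρ : ℕ → ℝ) (a b : ℕ) (H : Finset ℕ) (g k : ℕ) (ω : Ω) : ℝ :=
  if k ∈ (Finset.Ico a b).image (fun q => q * g) then wq A ρ H g (k / g) ω else 0

lemma wd_01 {ρ : ℕ → ℝ} (hρ : ∀ n, 0 ≤ ρ n ∧ ρ n ≤ 1) (a b : ℕ) (H : Finset ℕ) (g k : ℕ) (ω : Ω) :
    |wd A ρ a b H g k ω| ≤ 1 := by
  unfold wd
  split_ifs
  · have := wq_01 (A := A) hρ H g (k / g) ω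
    rw [abs_of_nonneg this.1]
    exact this.2
  · simp

lemma wd_meas (hA : ∀ n, MeasurableSet[ℱ n] (A n)) (ρ : ℕ → ℝ) (a b : ℕ) (ha : 1 ≤ a) (H : Finset ℕ) (g k : ℕ)
    (hg : 1 ≤ g) : StronglyMeasurable[ℱ (0 + k)] (wd A ρ a b H g k) := by
  unfold wd
  by_cases hk : k ∈ (Finset.Ico a b).image (fun q => q * g)
  · simp only [hk, if_true]
    rw [Finset.mem_image] at hk
    obtain ⟨q, hq, rfl⟩ := hk
    rw [Finset.mem_Ico] at hq
    rw [Nat.mul_div_cancel q hg]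
    have h1 : StronglyMeasurable[ℱ (0 + q * g)] (∏ h ∈ H.filter (· < g), In A (q * h + 1)) := by
      refine Finset.stronglyMeasurable_prod _ fun h hh => ?_
      apply In_meas hA
      have h2 : h < g := (Finset.mem_filter.1 hh).2
      have h3 : q * (h + 1) ≤ q * g := Nat.mul_le_mul_left _ h2
      have h4 : q * (h + 1) = q * h + q := by ring
      omega
    have h2 : wq A ρ H g q = fun ω => (∏ h ∈ H.filter (· < g), In A (q * h + 1)) ω * ∏ h ∈ H.filter (g < ·), ρ (q * h + 1) := by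
      funext ω
      simp [wq]
    have h3 : (fun ω => wq A ρ H g q ω) = wq A ρ H g q := rfl
    rw [h3, h2]
    exact h1.mul_const _
  · simp only [hk, if_false]
    exact @stronglyMeasurable_const _ _ (ℱ (0 + k)) _ _

lemma Sw_eq (ρ : ℕ → ℝ) (a b : ℕ) (H : Finset ℕ) (g : ℕ) (hg : 1 ≤ g) (ω : Ω) :
    Sw μ ℱ A 0 (wd A ρ a b H g) (b * g) ω =
      ∑ q ∈ Finset.Ico a b, wq A ρ H g q ω * (In A (q * g + 1) ω - dens μ ℱ A (q * g) ω) := by
  classical
  unfold Sw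
  have hsub : (Finset.Ico a b).image (fun q => q * g) ⊆ Finset.range (b * g) := by
    intro k hk
    rw [Finset.mem_image] at hk
    obtain ⟨q, hq, rfl⟩ := hk
    rw [Finset.mem_Ico] at hq
    rw [Finset.mem_range]
    exact Nat.mul_lt_mul_of_pos_right hq.2 hg
  rw [← Finset.sum_subset hsub]
  · rw [Finset.sum_image]
    · apply Finset.sum_congr rfl
      intro q hq
      have h1 : q * g ∈ (Finset.Ico a b).image (fun q => q * g) := Finset.mem_image_of_mem _ hq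
      unfold wd
      rw [if_pos h1, Nat.mul_div_cancel q hg]
      simp only [zero_add]
      rfl
    · intro q _ q' _ h
      exact Nat.eq_of_mul_eq_mul_right hg h
  · intro k _ hk
    unfold wd
    rw [if_neg hk, zero_mul]

/-- powers of the logarithm -/
lemma log_pow_le (K : ℕ) (c s : ℝ) (hs : 0 < s) : ∀ᶠ x : ℕ in atTop, c * Real.log x ^ K ≤ (x : ℝ) ^ s := by
  have h1 := (isLittleO_log_rpow_rpow_atTop (K : ℝ) hs).bound (show (0 : ℝ) < 1 / (|c| + 1) by positivity)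
  have h2 := tendsto_natCast_atTop_atTop (R := ℝ) |>.eventually h1
  filter_upwards [h2, eventually_ge_atTop 1] with x hx hx1
  have hx0 : (1 : ℝ) ≤ x := by exact_mod_cast hx1
  have hlog : 0 ≤ Real.log (x : ℝ) := Real.log_nonneg hx0
  have h3 : 0 ≤ Real.log (x : ℝ) ^ K := pow_nonneg hlog K
  rw [Real.norm_eq_abs, Real.norm_eq_abs, Real.rpow_natCast, abs_of_nonneg h3,
    abs_of_nonneg (Real.rpow_nonneg (Nat.cast_nonneg x) s)] at hx
  have h4 : c * Real.log x ^ K ≤ (|c| + 1) * Real.log x ^ K :=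
    mul_le_mul_of_nonneg_right (by linarith [le_abs_self c]) h3
  have h5 : (|c| + 1) * Real.log x ^ K ≤ (|c| + 1) * (1 / (|c| + 1) * (x : ℝ) ^ s) :=
    mul_le_mul_of_nonneg_left hx (by positivity)
  have h6 : (|c| + 1) * (1 / (|c| + 1) * (x : ℝ) ^ s) = (x : ℝ) ^ s := by field_simp
  linarith

open Classical in
/-- the admissible sets -/
noncomputable def FS (C l x : ℕ) : Finset (Finset ℕ) :=
  ((Finset.Icc 1 x).powersetCard l).filter (fun T : Finset ℕ => ∀ r : ℕ, r ∈ T → (r : ℝ) ≤ Real.log x ^ C)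

lemma mem_FS {C l x : ℕ} {T : Finset ℕ} : T ∈ FS C l x ↔ (T ⊆ Finset.Icc 1 x ∧ T.card = l) ∧
    ∀ r : ℕ, r ∈ T → (r : ℝ) ≤ Real.log x ^ C := by
  classical
  unfold FS
  rw [Finset.mem_filter, Finset.mem_powersetCard]

lemma FS_card (C l x : ℕ) : ((FS C l x).card : ℝ) ≤ (x : ℝ) ^ l := by
  classical
  have h1 : (FS C l x).card ≤ x ^ l := by
    unfold FS
    refine (Finset.card_filter_le _ _).trans ?_
    rw [Finset.card_powersetCard, Nat.card_Icc, Nat.add_sub_cancel]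
    exact Nat.choose_le_pow x l
  exact_mod_cast h1

/-- all the martingales are small -/
theorem dil_errors (hA : ∀ n, MeasurableSet[ℱ n] (A n)) (ρ : ℕ → ℝ) (hρ : ∀ n, 0 ≤ ρ n ∧ ρ n ≤ 1) (C l : ℕ) :
    ∀ᵐ ω ∂μ, ∀ᶠ x : ℕ in atTop, ∀ T : Finset ℕ, (∀ r ∈ T, 1 ≤ r ∧ (r : ℝ) ≤ Real.log x ^ C) → T.card = l →
      ∀ g ∈ T, |Sw μ ℱ A 0 (wd A ρ x (2 * x) T g) (2 * x * g) ω| < (x : ℝ) ^ (3 / 4 : ℝ) := by
  classical
  set Bad : ℕ → Set Ω := fun x => ⋃ T ∈ FS C l x,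
    ⋃ g ∈ T, {ω | (x : ℝ) ^ (3 / 4 : ℝ) ≤ |Sw μ ℱ A 0 (wd A ρ x (2 * x) T g) (2 * x * g) ω|} with hBad
  have hsum : Summable (fun x : ℕ => 2 * (l : ℝ) * ((x : ℝ) ^ 2)⁻¹) :=
    (Real.summable_nat_pow_inv.2 (by norm_num)).mul_left _
  have hb : ∀ᶠ x in atTop, μ.real (Bad x) ≤ 2 * (l : ℝ) * ((x : ℝ) ^ 2)⁻¹ := by
    filter_upwards [eventually_ge_atTop 2, log_pow_le (C + 1) (4 * (l + 2)) (1 / 2) (by norm_num)] with x hx hxl
    have hx' : (2 : ℝ) ≤ x := by exact_mod_cast hx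
    have hx0 : (0 : ℝ) < x := by linarith
    have hlog : 0 < Real.log (x : ℝ) := Real.log_pos (by linarith)
    have h1 : ∀ T ∈ FS C l x, ∀ g ∈ T,
        μ.real {ω | (x : ℝ) ^ (3 / 4 : ℝ) ≤ |Sw μ ℱ A 0 (wd A ρ x (2 * x) T g) (2 * x * g) ω|} ≤
          2 * ((x : ℝ) ^ (l + 2))⁻¹ := by
      intro T hT g hg
      rw [mem_FS] at hT
      have hg1 : 1 ≤ g := (Finset.mem_Icc.1 (hT.1.1 hg)).1
      have hgr : (g : ℝ) ≤ Real.log x ^ C := hT.2 g hg
      have hg0 : (0 : ℝ) < g := by exact_mod_cast hg1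
      have hM : 0 < 2 * x * g := by positivity
      have h2 := Sw_tail (μ := μ) hA 0 (wd A ρ x (2 * x) T g) (fun k => wd_meas hA ρ x (2 * x) (by omega) T g k hg1)
        (fun k ω => wd_01 hρ _ _ _ _ _ _) (2 * x * g) hM (lam := (x : ℝ) ^ (3 / 4 : ℝ)) (by positivity)
      refine h2.trans (mul_le_mul_of_nonneg_left ?_ (by norm_num))
      have e1 : ((x : ℝ) ^ (l + 2))⁻¹ = Real.exp (-((l + 2 : ℕ) * Real.log x)) := by
        rw [Real.exp_neg, Real.exp_nat_mul, Real.exp_log hx0]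
      rw [e1]
      apply Real.exp_le_exp.2
      apply neg_le_neg
      have e2 : ((x : ℝ) ^ (3 / 4 : ℝ)) ^ 2 = x * (x : ℝ) ^ (1 / 2 : ℝ) := by
        have e4 : (x : ℝ) * (x : ℝ) ^ (1 / 2 : ℝ) = (x : ℝ) ^ (1 + 1 / 2 : ℝ) := by
          rw [Real.rpow_add hx0, Real.rpow_one]
        rw [e4, ← Real.rpow_natCast, ← Real.rpow_mul hx0.le]
        norm_num
      rw [e2, le_div_iff₀ (by positivity)]
      push_cast
      have e3 : ((l : ℝ) + 2) * Real.log x * (2 * (2 * x * g)) = x * (4 * (l + 2) * (Real.log x * g)) := by ring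
      rw [e3]
      apply mul_le_mul_of_nonneg_left _ hx0.le
      refine le_trans ?_ hxl
      apply mul_le_mul_of_nonneg_left _ (by positivity)
      rw [pow_succ, mul_comm]
      exact mul_le_mul_of_nonneg_right hgr hlog.le
    have h2 : μ.real (Bad x) ≤ ∑ T ∈ FS C l x, (l : ℝ) * (2 * ((x : ℝ) ^ (l + 2))⁻¹) := by
      refine (measureReal_biUnion_finset_le _ _).trans (Finset.sum_le_sum fun T hT => ?_)
      refine (measureReal_biUnion_finset_le _ _).trans ((Finset.sum_le_sum fun g hg => h1 T hT g hg).trans ?_)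
      rw [Finset.sum_const, nsmul_eq_mul]
      have : T.card = l := (mem_FS.1 hT).1.2
      rw [this]
    rw [Finset.sum_const, nsmul_eq_mul] at h2
    have h3 := mul_le_mul_of_nonneg_right (FS_card C l x)
      (show 0 ≤ (l : ℝ) * (2 * ((x : ℝ) ^ (l + 2))⁻¹) by positivity)
    have h4 : (x : ℝ) ^ l * ((l : ℝ) * (2 * ((x : ℝ) ^ (l + 2))⁻¹)) = 2 * (l : ℝ) * ((x : ℝ) ^ 2)⁻¹ := by
      rw [pow_add]
      field_simp
    rw [h4] at h3
    exact h2.trans h3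
  filter_upwards [bc_real (μ := μ) hsum hb] with ω hω
  filter_upwards [hω, log_pow_le C 1 1 one_pos] with x hx hxC T hT hTl g hg
  by_contra hcon
  apply hx
  simp only [hBad, Set.mem_iUnion]
  refine ⟨T, mem_FS.2 ⟨⟨?_, hTl⟩, fun r hr => (hT r hr).2⟩, g, hg, not_lt.1 hcon⟩
  intro r hr
  rw [Finset.mem_Icc]
  refine ⟨(hT r hr).1, ?_⟩
  have h1 := (hT r hr).2
  rw [Real.rpow_one, one_mul] at hxC
  exact_mod_cast h1.trans hxC

lemma TD_nonneg {ρ : ℕ → ℝ} (hρ : ∀ n, 0 ≤ ρ n ∧ ρ n ≤ 1) (a b : ℕ) (L U : Finset ℕ) (ω : Ω) : 0 ≤ TD A ρ a b L U ω :=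
  Finset.sum_nonneg fun _ _ => mul_nonneg (Finset.prod_nonneg fun _ _ => In_nonneg _ _) (Finset.prod_nonneg fun _ _ => (hρ _).1)

/-- one step -/
lemma TD_step {ρ : ℕ → ℝ} (hρ : ∀ n, 0 ≤ ρ n ∧ ρ n ≤ 1) {ω : Ω}
    {ε : ℝ} {N : ℕ} (hN : ∀ n, N ≤ n → |dens μ ℱ A n ω - ρ (n + 1)| ≤ ε * ρ (n + 1))
    (a b : ℕ) (hNa : N ≤ a) (L U : Finset ℕ) (g : ℕ) (hg : 1 ≤ g) (hL : ∀ a ∈ L, a < g) (hU : ∀ b ∈ U, g < b) :
    |TD A ρ a b (insert g L) U ω - TD A ρ a b L (insert g U) ω| ≤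
      |Sw μ ℱ A 0 (wd A ρ a b (insert g (L ∪ U)) g) (b * g) ω| + ε * TD A ρ a b L (insert g U) ω := by
  classical
  have hgL : g ∉ L := fun h => lt_irrefl _ (hL g h)
  have hgU : g ∉ U := fun h => lt_irrefl _ (hU g h)
  have f1 : (insert g (L ∪ U)).filter (· < g) = L := by
    ext a
    simp only [Finset.mem_filter, Finset.mem_insert, Finset.mem_union]
    constructor
    · rintro ⟨h1 | h1 | h1, h2⟩
      · omega
      · exact h1
      · have := hU a h1; omega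
    · intro h
      exact ⟨Or.inr (Or.inl h), hL a h⟩
  have f2 : (insert g (L ∪ U)).filter (g < ·) = U := by
    ext a
    simp only [Finset.mem_filter, Finset.mem_insert, Finset.mem_union]
    constructor
    · rintro ⟨h1 | h1 | h1, h2⟩
      · omega
      · have := hL a h1; omega
      · exact h1
    · intro h
      exact ⟨Or.inr (Or.inr h), hU a h⟩
  set w : ℕ → ℝ := fun q => wq A ρ (insert g (L ∪ U)) g q ω with hw
  have hw01 : ∀ k, 0 ≤ w k ∧ w k ≤ 1 := fun k => wq_01 hρ _ _ _ _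
  have e1 : ∀ q, (∏ h ∈ insert g L, In A (q * h + 1) ω) * ∏ h ∈ U, ρ (q * h + 1) = w q * In A (q * g + 1) ω := by
    intro q
    simp only [hw, wq, f1, f2]
    rw [Finset.prod_insert hgL]
    ring
  have e2 : ∀ q, (∏ h ∈ L, In A (q * h + 1) ω) * ∏ h ∈ insert g U, ρ (q * h + 1) = w q * ρ (q * g + 1) := by
    intro q
    simp only [hw, wq, f1, f2]
    rw [Finset.prod_insert hgU]
    ring
  rw [Sw_eq ρ a b _ g hg ω]
  have e3 : TD A ρ a b (insert g L) U ω - TD A ρ a b L (insert g U) ω =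
      ∑ q ∈ Finset.Ico a b, wq A ρ (insert g (L ∪ U)) g q ω * (In A (q * g + 1) ω - dens μ ℱ A (q * g) ω) +
        ∑ q ∈ Finset.Ico a b, w q * (dens μ ℱ A (q * g) ω - ρ (q * g + 1)) := by
    unfold TD
    simp only [e1, e2]
    rw [← Finset.sum_sub_distrib, ← Finset.sum_add_distrib]
    refine Finset.sum_congr rfl fun q _ => ?_
    simp only [hw]
    ring
  have e4 : |∑ q ∈ Finset.Ico a b, w q * (dens μ ℱ A (q * g) ω - ρ (q * g + 1))| ≤ ε * TD A ρ a b L (insert g U) ω := by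
    have b1 : ∀ q ∈ Finset.Ico a b, |w q * (dens μ ℱ A (q * g) ω - ρ (q * g + 1))| ≤ ε * (w q * ρ (q * g + 1)) := by
      intro q hq
      rw [Finset.mem_Ico] at hq
      rw [abs_mul, abs_of_nonneg (hw01 q).1]
      have c0 : q ≤ q * g := Nat.le_mul_of_pos_right q hg
      have c1 := hN (q * g) (by omega)
      calc w q * |dens μ ℱ A (q * g) ω - ρ (q * g + 1)| ≤ w q * (ε * ρ (q * g + 1)) :=
            mul_le_mul_of_nonneg_left c1 (hw01 q).1
        _ = _ := by ring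
    refine (Finset.abs_sum_le_sum_abs _ _).trans ((Finset.sum_le_sum b1).trans ?_)
    rw [← Finset.mul_sum]
    refine le_of_eq ?_
    congr 1
    unfold TD
    exact Finset.sum_congr rfl fun q _ => (e2 q).symm
  rw [e3]
  refine (abs_add_le _ _).trans ?_
  linarith

/-- all steps -/
lemma TD_bounds {ρ : ℕ → ℝ} (hρ : ∀ n, 0 ≤ ρ n ∧ ρ n ≤ 1) {ω : Ω}
    {ε : ℝ} (hε : 0 ≤ ε) (hε1 : ε ≤ 1) {N : ℕ} (hN : ∀ n, N ≤ n → |dens μ ℱ A n ω - ρ (n + 1)| ≤ ε * ρ (n + 1))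
    (a b : ℕ) (hNa : N ≤ a) (H : Finset ℕ) (hH1 : ∀ g ∈ H, 1 ≤ g) {lam : ℝ} (hlam : 0 ≤ lam)
    (hH : ∀ g ∈ H, |Sw μ ℱ A 0 (wd A ρ a b H g) (b * g) ω| ≤ lam) (L : Finset ℕ) :
    ∀ U : Finset ℕ, (∀ a ∈ L, ∀ b ∈ U, a < b) → L ∪ U = H →
      (1 - ε) ^ L.card * TD A ρ a b ∅ H ω - L.card * lam ≤ TD A ρ a b L U ω ∧
      TD A ρ a b L U ω ≤ (1 + ε) ^ L.card * (TD A ρ a b ∅ H ω + L.card * lam) := by
  classical
  have hE0 := TD_nonneg (A := A) hρ a b ∅ H ω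
  induction L using Finset.induction_on_max with
  | empty =>
    intro U _ hU
    rw [Finset.empty_union] at hU
    subst hU
    simp
  | insert g L hg ih =>
    intro U hLU hU
    have hgL : g ∉ L := fun h => lt_irrefl _ (hg g h)
    have hgU : ∀ b ∈ U, g < b := fun b hb => hLU g (Finset.mem_insert_self g L) b hb
    have h1 := ih (insert g U) (by
      intro a ha b hb
      rcases Finset.mem_insert.1 hb with h | h
      · rw [h]; exact hg a ha
      · exact hLU a (Finset.mem_insert_of_mem ha) b h) (by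
      rw [Finset.union_insert, ← Finset.insert_union]
      exact hU)
    have h3 : insert g (L ∪ U) = H := by rw [← Finset.insert_union]; exact hU
    have hgH : g ∈ H := by rw [← h3]; exact Finset.mem_insert_self _ _
    have h2 := TD_step (μ := μ) hρ hN a b hNa L U g (hH1 g hgH) hg hgU
    rw [h3] at h2
    have h4 := hH g hgH
    have h5 := abs_le.1 h2
    rw [Finset.card_insert_of_notMem hgL]
    have hT0 := TD_nonneg (A := A) hρ a b L (insert g U) ω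
    set T := TD A ρ a b L (insert g U) ω
    set E := TD A ρ a b ∅ H ω
    push_cast
    constructor
    · have h6 : (1 - ε) * T - lam ≤ TD A ρ a b (insert g L) U ω := by linarith [h5.1]
      have h7 : (1 - ε) * ((1 - ε) ^ L.card * E - L.card * lam) ≤ (1 - ε) * T :=
        mul_le_mul_of_nonneg_left h1.1 (by linarith)
      have h8 : 0 ≤ ε * (L.card * lam) := by positivity
      calc (1 - ε) ^ (L.card + 1) * E - (L.card + 1) * lam ≤
          (1 - ε) * ((1 - ε) ^ L.card * E - L.card * lam) - lam := by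
            rw [pow_succ]
            nlinarith
        _ ≤ _ := by linarith
    · have h6 : TD A ρ a b (insert g L) U ω ≤ (1 + ε) * T + lam := by linarith [h5.2]
      have h7 : (1 + ε) * T ≤ (1 + ε) * ((1 + ε) ^ L.card * (E + L.card * lam)) :=
        mul_le_mul_of_nonneg_left h1.2 (by linarith)
      have h8 : (1 : ℝ) ≤ (1 + ε) ^ (L.card + 1) := one_le_pow₀ (by linarith)
      have h9 : lam ≤ (1 + ε) ^ (L.card + 1) * lam := le_mul_of_one_le_left hlam h8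
      calc TD A ρ a b (insert g L) U ω ≤ (1 + ε) * ((1 + ε) ^ L.card * (E + L.card * lam)) + (1 + ε) ^ (L.card + 1) * lam := by linarith
        _ = _ := by ring

/-- the uniform law -/
theorem dil_law (hA : ∀ n, MeasurableSet[ℱ n] (A n)) (ρ : ℕ → ℝ) (hρ : ∀ n, 0 ≤ ρ n ∧ ρ n ≤ 1)
    (hd : ∀ᵐ ω ∂μ, ∀ ε : ℝ, 0 < ε → ∀ᶠ n : ℕ in atTop, |dens μ ℱ A n ω - ρ (n + 1)| ≤ ε * ρ (n + 1)) :
    ∀ᵐ ω ∂μ, ∀ C l : ℕ, ∀ ε : ℝ, 0 < ε → ∀ᶠ x : ℕ in atTop, ∀ T : Finset ℕ,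
      (∀ r ∈ T, 1 ≤ r ∧ (r : ℝ) ≤ Real.log x ^ C) → T.card = l →
      |TD A ρ x (2 * x) T ∅ ω - TD A ρ x (2 * x) ∅ T ω| ≤
        2 * l * (x : ℝ) ^ (3 / 4 : ℝ) + ε * TD A ρ x (2 * x) ∅ T ω := by
  have herr : ∀ᵐ ω ∂μ, ∀ C l : ℕ, ∀ᶠ x : ℕ in atTop, ∀ T : Finset ℕ,
      (∀ r ∈ T, 1 ≤ r ∧ (r : ℝ) ≤ Real.log x ^ C) → T.card = l →
      ∀ g ∈ T, |Sw μ ℱ A 0 (wd A ρ x (2 * x) T g) (2 * x * g) ω| < (x : ℝ) ^ (3 / 4 : ℝ) :=
    ae_all_iff.2 fun C => ae_all_iff.2 fun l => dil_errors hA ρ hρ C l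
  filter_upwards [herr, hd] with ω h2 h3 C k ε hε
  set ε₁ := min ε 1 with hε₁
  have h0 : 0 < ε₁ := lt_min hε one_pos
  have h1 : ε₁ ≤ 1 := min_le_right _ _
  have h2' : ε₁ ≤ ε := min_le_left _ _
  set ε' := ε₁ / (2 * (k + 1)) with hε'
  have hk0 : (0 : ℝ) ≤ k := Nat.cast_nonneg k
  have h3' : 0 < ε' := by positivity
  have h4 : ε' ≤ 1 := by
    rw [hε', div_le_one (by positivity)]
    linarith
  have h5 : k * ε' ≤ ε₁ / 2 := by
    rw [hε', mul_div_assoc', div_le_div_iff₀ (by positivity) (by norm_num)]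
    nlinarith
  have hup : (1 + ε') ^ k ≤ 1 + ε₁ := by
    have e1 : (1 + ε') ^ k ≤ Real.exp (k * ε') := by
      have g1 : 1 + ε' ≤ Real.exp ε' := by have := Real.add_one_le_exp ε'; linarith
      calc (1 + ε') ^ k ≤ (Real.exp ε') ^ k := pow_le_pow_left₀ (by linarith) g1 _
        _ = _ := by rw [← Real.exp_nat_mul]
    have g1 : 0 ≤ k * ε' := by positivity
    have e2 := Real.abs_exp_sub_one_le (x := k * ε') (by rw [abs_of_nonneg g1]; linarith)
    rw [abs_of_nonneg g1] at e2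
    have e3 := (le_abs_self _).trans e2
    linarith
  have hlow : 1 - ε₁ ≤ (1 - ε') ^ k := by
    have e1 := one_add_mul_le_pow (show (-2 : ℝ) ≤ -ε' by linarith) k
    have e2 : 1 + (k : ℝ) * -ε' = 1 - k * ε' := by ring
    rw [e2] at e1
    rw [show (1 : ℝ) - ε' = 1 + -ε' by ring]
    linarith
  obtain ⟨N, hN⟩ := eventually_atTop.1 (h3 ε' h3')
  filter_upwards [h2 C k, eventually_ge_atTop N] with x hx1 hx2 H hH hHk
  have hlam : 0 ≤ (x : ℝ) ^ (3 / 4 : ℝ) := by positivity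
  have h6 := TD_bounds (μ := μ) hρ h3'.le h4 hN x (2 * x) hx2 H (fun g hg => (hH g hg).1) hlam
    (fun g hg => (hx1 H hH hHk g hg).le) H ∅ (by simp) (by simp)
  rw [hHk] at h6
  have hE := TD_nonneg (A := A) hρ x (2 * x) ∅ H ω
  set E := TD A ρ x (2 * x) ∅ H ω
  set lam := (x : ℝ) ^ (3 / 4 : ℝ)
  have hkl : 0 ≤ k * lam := by positivity
  rw [abs_le]
  constructor
  · have g1 : (1 - ε₁) * E ≤ (1 - ε') ^ k * E := mul_le_mul_of_nonneg_right hlow hE
    have g2 : ε₁ * E ≤ ε * E := mul_le_mul_of_nonneg_right h2' hE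
    linarith [h6.1]
  · have g1 : (1 + ε') ^ k * (E + k * lam) ≤ (1 + ε₁) * (E + k * lam) :=
      mul_le_mul_of_nonneg_right hup (by linarith)
    have g2 : ε₁ * E ≤ ε * E := mul_le_mul_of_nonneg_right h2' hE
    have g3 : ε₁ * (k * lam) ≤ 1 * (k * lam) := mul_le_mul_of_nonneg_right h1 hkl
    linarith [h6.2]

end Pool.Agent.D0H24.UT
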