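import Pool.Agent.D0H24.UT.Ser
import Pool.Agent.D0H24.UT.Dil

/-!
# The expected number of tuples
-/

set_option autoImplicit false

namespace Pool.Agent.D0H24.UT

open Finset
open Pool.Agent.D0H60.RMG (W W_pos W_ge W_mono dn Rough dn_nonneg)

/-- the density -/
noncomputable def rh (z : ℕ → ℕ) (m : ℕ) : ℝ := min (dn z m) 1

lemma rh_01 (z : ℕ → ℕ) (m : ℕ) : 0 ≤ rh z m ∧ rh z m ≤ 1 :=
  ⟨le_min (dn_nonneg z m) zero_le_one, min_le_right _ _⟩

/-- the expected number -/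
noncomputable def Ed (z : ℕ → ℕ) (T : Finset ℕ) (a b : ℕ) : ℝ := ∑ q ∈ Ico a b, ∏ h ∈ T, rh z (q * h + 1)

/-- the forms which are sieved by `p` in the block starting at `a` -/
def Ub (z : ℕ → ℕ) (T : Finset ℕ) (a p : ℕ) : Finset ℕ := T.filter (fun r => p ≤ z (a * r + 1))

/-- the product of the local factors in the block starting at `a` -/
noncomputable def Rb (z : ℕ → ℕ) (T : Finset ℕ) (a Zm : ℕ) : ℝ := ∏ p ∈ pr Zm, phi (Ub z T a p) p

lemma good_iff (z : ℕ → ℕ) (T : Finset ℕ) (a q Zm : ℕ) (hc : ∀ r ∈ T, z (q * r + 1) = z (a * r + 1))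
    (hZ : ∀ r ∈ T, z (a * r + 1) ≤ Zm) :
    good (Ub z T a) (pr Zm) q ↔ ∀ r ∈ T, Rough z (q * r + 1) := by
  unfold good Rough
  constructor
  · intro h r hr p hp hpz hpd
    rw [hc r hr] at hpz
    apply h p (mem_pr.2 ⟨hp, hpz.trans (hZ r hr)⟩)
    rw [dvd_iff _ hp]
    exact ⟨r, mem_filter.2 ⟨hr, hpz⟩, hpd⟩
  · intro h p hp hd
    have hpp := (mem_pr.1 hp).1
    rw [dvd_iff _ hpp] at hd
    obtain ⟨r, hr, h2⟩ := hd
    unfold Ub at hr
    rw [mem_filter] at hr
    apply h r hr.1 p hpp _ h2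
    rw [hc r hr.1]
    exact hr.2

lemma W_prod (z : ℕ → ℕ) (T : Finset ℕ) (a Zm : ℕ) (hZ : ∀ r ∈ T, z (a * r + 1) ≤ Zm) :
    (∏ r ∈ T, W (z (a * r + 1))) * ∏ p ∈ pr Zm, (1 - (w (Ub z T a p) p : ℝ) / p) = Rb z T a Zm := by
  have h1 : ∀ r ∈ T, W (z (a * r + 1)) = ∏ p ∈ pr Zm, (if p ≤ z (a * r + 1) then (1 - (p : ℝ)⁻¹)⁻¹ else 1) := by
    intro r hr
    rw [← prod_filter]
    unfold W
    apply prod_congr _ fun _ _ => rfl
    ext p
    change p ∈ pr (z (a * r + 1)) ↔ _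
    rw [mem_filter, mem_pr, mem_pr]
    constructor
    · rintro ⟨b1, b2⟩
      exact ⟨⟨b1, b2.trans (hZ r hr)⟩, b2⟩
    · rintro ⟨⟨b1, _⟩, b2⟩
      exact ⟨b1, b2⟩
  rw [prod_congr rfl h1, prod_comm, ← prod_mul_distrib]
  unfold Rb
  apply prod_congr rfl
  intro p hp
  obtain ⟨h0, h1, h2, h3⟩ := t_facts (mem_pr.1 hp).1
  rw [← prod_filter, prod_const]
  unfold phi
  change ((1 - (p : ℝ)⁻¹)⁻¹) ^ (Ub z T a p).card * _ = _
  rw [inv_pow, show (p : ℝ)⁻¹ = 1 / p from inv_eq_one_div _]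
  field_simp

/-- one block -/
lemma blk (z : ℕ → ℕ) (T : Finset ℕ) (a b Zm : ℕ) (hlt : a < b)
    (hc : ∀ r ∈ T, ∀ q ∈ Ico a b, z (q * r + 1) = z (a * r + 1)) (hZ : ∀ r ∈ T, z (a * r + 1) ≤ Zm)
    (L L' : ℝ) (hL0 : 0 < L) (hL : ∀ r ∈ T, ∀ q ∈ Ico a b, L ≤ Real.log (q * r + 1 : ℕ) ∧ Real.log (q * r + 1 : ℕ) ≤ L')
    (hdn : ∀ r ∈ T, ∀ q ∈ Ico a b, dn z (q * r + 1) ≤ 1) :
    (((b : ℝ) - a) * Rb z T a Zm - 2 * ((∏ p ∈ pr Zm, p : ℕ) : ℝ) * W Zm ^ T.card) / L' ^ T.card ≤ Ed z T a b ∧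
    Ed z T a b ≤ (((b : ℝ) - a) * Rb z T a Zm + 2 * ((∏ p ∈ pr Zm, p : ℕ) : ℝ) * W Zm ^ T.card) / L ^ T.card := by
  classical
  have haI : a ∈ Ico a b := mem_Ico.2 ⟨le_rfl, hlt⟩
  set Wd := ∏ r ∈ T, W (z (a * r + 1)) with hWd
  have hWd0 : 0 < Wd := prod_pos fun r _ => W_pos _
  have hWdm : Wd ≤ W Zm ^ T.card := by
    rw [hWd, ← prod_const]
    exact prod_le_prod (fun r _ => (W_pos _).le) fun r hr => W_mono (hZ r hr)
  have hcount := count_Ico (Ub z T a) (pr Zm) (fun q hq => (mem_pr.1 hq).1) a b hlt.le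
  set cnt := ((((Ico a b).filter (good (Ub z T a) (pr Zm))).card : ℕ) : ℝ) with hcnt
  set P := ((∏ q ∈ pr Zm, q : ℕ) : ℝ) with hP
  set D := ∏ p ∈ pr Zm, (1 - (w (Ub z T a p) p : ℝ) / p) with hD
  have hR : Wd * D = Rb z T a Zm := W_prod z T a Zm hZ
  have hE : Ed z T a b = ∑ q ∈ (Ico a b).filter (good (Ub z T a) (pr Zm)), ∏ r ∈ T, (W (z (a * r + 1)) / Real.log (q * r + 1 : ℕ)) := by
    unfold Ed
    rw [sum_filter]
    apply sum_congr rfl
    intro q hq
    have hgi := good_iff z T a q Zm (fun r hr => hc r hr q hq) hZ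
    split_ifs with hg
    · apply prod_congr rfl
      intro r hr
      unfold rh
      rw [min_eq_left (hdn r hr q hq)]
      unfold dn
      rw [if_pos (hgi.1 hg r hr), hc r hr q hq]
    · rw [hgi] at hg
      push Not at hg
      obtain ⟨r, hr, h1⟩ := hg
      apply prod_eq_zero hr
      unfold rh
      rw [min_eq_left (hdn r hr q hq)]
      unfold dn
      rw [if_neg h1]
  have hup : ∀ q ∈ (Ico a b).filter (good (Ub z T a) (pr Zm)),
      ∏ r ∈ T, (W (z (a * r + 1)) / Real.log (q * r + 1 : ℕ)) ≤ Wd / L ^ T.card := by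
    intro q hq
    have hq' := (mem_filter.1 hq).1
    rw [hWd, ← prod_const, ← prod_div_distrib]
    apply prod_le_prod
    · intro r hr
      exact div_nonneg (W_pos _).le (hL0.le.trans (hL r hr q hq').1)
    · intro r hr
      exact div_le_div_of_nonneg_left (W_pos _).le hL0 (hL r hr q hq').1
  have hlo : ∀ q ∈ (Ico a b).filter (good (Ub z T a) (pr Zm)),
      Wd / L' ^ T.card ≤ ∏ r ∈ T, (W (z (a * r + 1)) / Real.log (q * r + 1 : ℕ)) := by
    intro q hq
    have hq' := (mem_filter.1 hq).1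
    rw [hWd, ← prod_const, ← prod_div_distrib]
    apply prod_le_prod
    · intro r hr
      exact div_nonneg (W_pos _).le ((hL0.le.trans (hL r hr q hq').1).trans (hL r hr q hq').2)
    · intro r hr
      exact div_le_div_of_nonneg_left (W_pos _).le (hL0.trans_le (hL r hr q hq').1) (hL r hr q hq').2
  have hu := sum_le_card_nsmul _ _ _ hup
  have hl := card_nsmul_le_sum _ _ _ hlo
  rw [nsmul_eq_mul, ← hE, ← hcnt] at hu hl
  rw [abs_le] at hcount
  have hL'0 : 0 < L' ^ T.card := by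
    rcases T.eq_empty_or_nonempty with hT | hT
    · subst hT
      simp
    · obtain ⟨r, hr⟩ := hT
      have := hL r hr a haI
      have : 0 < L' := by linarith
      positivity
  have hL00 : 0 < L ^ T.card := by positivity
  have hP0 : 0 ≤ P := Nat.cast_nonneg _
  have hPW : 2 * P * Wd ≤ 2 * P * W Zm ^ T.card := mul_le_mul_of_nonneg_left hWdm (by positivity)
  constructor
  · refine le_trans ?_ hl
    have e : cnt * (Wd / L' ^ T.card) = cnt * Wd / L' ^ T.card := by ring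
    rw [e, div_le_div_iff_of_pos_right hL'0, ← hR]
    have h1 : (((b : ℝ) - a) * D - 2 * P) * Wd ≤ cnt * Wd :=
      mul_le_mul_of_nonneg_right (by linarith [hcount.1]) hWd0.le
    linarith
  · refine hu.trans ?_
    have e : cnt * (Wd / L ^ T.card) = cnt * Wd / L ^ T.card := by ring
    rw [e, div_le_div_iff_of_pos_right hL00, ← hR]
    have h1 : cnt * Wd ≤ (((b : ℝ) - a) * D + 2 * P) * Wd :=
      mul_le_mul_of_nonneg_right (by linarith [hcount.2]) hWd0.le
    linarith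

lemma Ed_blocks (z : ℕ → ℕ) (T : Finset ℕ) (x H J : ℕ) :
    Ed z T x (x + J * H) = ∑ i ∈ range J, Ed z T (x + i * H) (x + (i + 1) * H) := by
  induction J with
  | zero => simp [Ed]
  | succ J ih =>
    rw [sum_range_succ, ← ih]
    unfold Ed
    rw [sum_Ico_consecutive]
    · omega
    · have : (J + 1) * H = J * H + H := by ring
      omega

lemma Ed_le (z : ℕ → ℕ) (T : Finset ℕ) (a b : ℕ) : Ed z T a b ≤ ((b - a : ℕ) : ℝ) := by
  unfold Ed
  calc _ ≤ ∑ q ∈ Ico a b, (1 : ℝ) := sum_le_sum fun q _ => prod_le_one (fun h _ => (rh_01 z _).1) fun h _ => (rh_01 z _).2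
    _ = _ := by simp

lemma Ed_nonneg (z : ℕ → ℕ) (T : Finset ℕ) (a b : ℕ) : 0 ≤ Ed z T a b :=
  sum_nonneg fun _ _ => prod_nonneg fun _ _ => (rh_01 z _).1

/-- the blocks in which the thresholds are constant -/
def Gb (z : ℕ → ℕ) (T : Finset ℕ) (x H J : ℕ) : Finset ℕ :=
  (range J).filter (fun i => ∀ r ∈ T, z ((x + (i + 1) * H) * r + 1) = z ((x + i * H) * r + 1))

lemma bad_card (z : ℕ → ℕ) (hz : Monotone z) (T : Finset ℕ) (x H J Zm : ℕ)
    (hZ : ∀ r ∈ T, z ((x + J * H) * r + 1) ≤ Zm) :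
    ((range J).filter (fun i => ¬ ∀ r ∈ T, z ((x + (i + 1) * H) * r + 1) = z ((x + i * H) * r + 1))).card ≤
      T.card * Zm := by
  have hm : ∀ r i, z ((x + i * H) * r + 1) ≤ z ((x + (i + 1) * H) * r + 1) := by
    intro r i
    apply hz
    apply Nat.add_le_add_right
    apply Nat.mul_le_mul_right
    apply Nat.add_le_add_left
    exact Nat.mul_le_mul_right _ (Nat.le_succ i)
  have h1 : ((range J).filter (fun i => ¬ ∀ r ∈ T, z ((x + (i + 1) * H) * r + 1) = z ((x + i * H) * r + 1))) ⊆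
      T.biUnion (fun r => (range J).filter (fun i => z ((x + i * H) * r + 1) < z ((x + (i + 1) * H) * r + 1))) := by
    intro i hi
    rw [mem_filter] at hi
    obtain ⟨h1, h2⟩ := hi
    push Not at h2
    obtain ⟨r, hr, h3⟩ := h2
    rw [mem_biUnion]
    exact ⟨r, hr, mem_filter.2 ⟨h1, lt_of_le_of_ne (hm r i) (Ne.symm h3)⟩⟩
  refine (card_le_card h1).trans (card_biUnion_le.trans ?_)
  rw [← smul_eq_mul, ← sum_const]
  apply sum_le_sum
  intro r hr
  have h2 : ∀ J' : ℕ, ((range J').filter (fun i => z ((x + i * H) * r + 1) < z ((x + (i + 1) * H) * r + 1))).card +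
      z (x * r + 1) ≤ z ((x + J' * H) * r + 1) := by
    intro J'
    induction J' with
    | zero => simp
    | succ J' ih =>
      rw [range_add_one, filter_insert]
      have := hm r J'
      split_ifs with hc
      · rw [card_insert_of_notMem (by simp)]
        omega
      · omega
  have := h2 J
  have := hZ r hr
  omega

/-- the expected number, all blocks -/
theorem tot (z : ℕ → ℕ) (hz : Monotone z) (T : Finset ℕ) (x H Zm : ℕ) (hH : 1 ≤ H)
    (hZ : ∀ r ∈ T, z (2 * x * r + 1) ≤ Zm)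
    (L L' : ℝ) (hL0 : 0 < L) (hL0' : 0 < L')
    (hL : ∀ r ∈ T, ∀ q ∈ Ico x (2 * x), L ≤ Real.log (q * r + 1 : ℕ) ∧ Real.log (q * r + 1 : ℕ) ≤ L')
    (hdn : ∀ r ∈ T, ∀ q ∈ Ico x (2 * x), dn z (q * r + 1) ≤ 1) (Rlo Rhi : ℝ) (hRlo : 0 ≤ Rlo) (hRhi : 0 ≤ Rhi)
    (hR : ∀ a, x ≤ a → a < 2 * x → Rlo ≤ Rb z T a Zm ∧ Rb z T a Zm ≤ Rhi) :
    (((x : ℝ) - (T.card * Zm + 1) * H) * Rlo - ((x / H : ℕ) : ℝ) * (2 * ((∏ p ∈ pr Zm, p : ℕ) : ℝ) * W Zm ^ T.card)) / L' ^ T.card ≤
      Ed z T x (2 * x) ∧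
    Ed z T x (2 * x) ≤ ((x : ℝ) * Rhi + ((x / H : ℕ) : ℝ) * (2 * ((∏ p ∈ pr Zm, p : ℕ) : ℝ) * W Zm ^ T.card)) / L ^ T.card +
      (T.card * Zm + 1) * H := by
  classical
  set J := x / H with hJ
  set E := 2 * ((∏ p ∈ pr Zm, p : ℕ) : ℝ) * W Zm ^ T.card with hE
  have hE0 : 0 ≤ E := by
    have := (W_pos Zm).le
    positivity
  have hJH : J * H ≤ x := Nat.div_mul_le_self x H
  have hJH2 : x < J * H + H := by
    have h1 := Nat.div_add_mod' x H
    rw [← hJ] at h1
    have h2 := Nat.mod_lt x hH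
    omega
  have hH0 : (0 : ℝ) < H := by exact_mod_cast hH
  have hL'p : 0 < L' ^ T.card := by positivity
  have hLp : 0 < L ^ T.card := by positivity
  set f : ℕ → ℝ := fun i => Ed z T (x + i * H) (x + (i + 1) * H) with hf
  -- one good block
  have hgood : ∀ i ∈ Gb z T x H J, ((H : ℝ) * Rlo - E) / L' ^ T.card ≤ f i ∧ f i ≤ ((H : ℝ) * Rhi + E) / L ^ T.card := by
    intro i hi
    unfold Gb at hi
    rw [mem_filter, mem_range] at hi
    have h1 : (i + 1) * H ≤ J * H := Nat.mul_le_mul_right _ hi.1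
    have h2 : (i + 1) * H = i * H + H := by ring
    have hsub : ∀ q ∈ Ico (x + i * H) (x + (i + 1) * H), q ∈ Ico x (2 * x) := by
      intro q hq
      rw [mem_Ico] at hq ⊢
      omega
    have hb := blk z T (x + i * H) (x + (i + 1) * H) Zm (by omega) (by
      intro r hr q hq
      rw [mem_Ico] at hq
      apply le_antisymm
      · rw [← hi.2 r hr]
        apply hz
        apply Nat.add_le_add_right
        exact Nat.mul_le_mul_right _ hq.2.le
      · apply hz
        apply Nat.add_le_add_right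
        exact Nat.mul_le_mul_right _ hq.1) (by
      intro r hr
      refine le_trans ?_ (hZ r hr)
      apply hz
      apply Nat.add_le_add_right
      apply Nat.mul_le_mul_right
      omega) L L' hL0 (fun r hr q hq => hL r hr q (hsub q hq)) (fun r hr q hq => hdn r hr q (hsub q hq))
    have e : (((x + (i + 1) * H : ℕ) : ℝ) - ((x + i * H : ℕ) : ℝ)) = H := by
      push_cast
      ring
    rw [e] at hb
    obtain ⟨r1, r2⟩ := hR (x + i * H) (by omega) (by omega)
    constructor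
    · refine le_trans ?_ hb.1
      rw [div_le_div_iff_of_pos_right hL'p]
      have := mul_le_mul_of_nonneg_left r1 hH0.le
      linarith
    · refine hb.2.trans ?_
      rw [div_le_div_iff_of_pos_right hLp]
      have := mul_le_mul_of_nonneg_left r2 hH0.le
      linarith
  have hbadc := bad_card z hz T x H J Zm (by
    intro r hr
    refine le_trans ?_ (hZ r hr)
    apply hz
    apply Nat.add_le_add_right
    apply Nat.mul_le_mul_right
    omega)
  set Bd := (range J).filter (fun i => ¬ ∀ r ∈ T, z ((x + (i + 1) * H) * r + 1) = z ((x + i * H) * r + 1)) with hBd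
  have hBdr : (Bd.card : ℝ) ≤ T.card * Zm := by exact_mod_cast hbadc
  have hcards : (Gb z T x H J).card + Bd.card = J := by
    unfold Gb
    rw [hBd, card_filter_add_card_filter_not, card_range]
  have hcr : ((Gb z T x H J).card : ℝ) + Bd.card = J := by exact_mod_cast hcards
  have hsum : Ed z T x (2 * x) = ∑ i ∈ Gb z T x H J, f i + ∑ i ∈ Bd, f i + Ed z T (x + J * H) (2 * x) := by
    have h1 : Ed z T x (2 * x) = Ed z T x (x + J * H) + Ed z T (x + J * H) (2 * x) := by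
      unfold Ed
      rw [sum_Ico_consecutive _ (by omega) (by omega)]
    rw [h1, Ed_blocks]
    congr 1
    unfold Gb
    rw [hBd, sum_filter_add_sum_filter_not]
  have hfb : ∀ i, f i ≤ H := by
    intro i
    refine (Ed_le z T _ _).trans (le_of_eq ?_)
    congr 1
    have : (i + 1) * H = i * H + H := by ring
    omega
  have hlast : Ed z T (x + J * H) (2 * x) ≤ H := by
    refine (Ed_le z T _ _).trans ?_
    have : 2 * x - (x + J * H) ≤ H := by omega
    exact_mod_cast this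
  have hJr : (J : ℝ) * H ≤ x := by exact_mod_cast hJH
  have hJr2 : (x : ℝ) ≤ J * H + H := by exact_mod_cast hJH2.le
  have hJ0 : (0 : ℝ) ≤ J := Nat.cast_nonneg _
  have hG0 : (0 : ℝ) ≤ (Gb z T x H J).card := Nat.cast_nonneg _
  have hB0 : (0 : ℝ) ≤ Bd.card := Nat.cast_nonneg _
  constructor
  · have h1 : ((Gb z T x H J).card : ℝ) * (((H : ℝ) * Rlo - E) / L' ^ T.card) ≤ ∑ i ∈ Gb z T x H J, f i := by
      rw [← nsmul_eq_mul]
      exact card_nsmul_le_sum _ _ _ fun i hi => (hgood i hi).1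
    have h2 : 0 ≤ ∑ i ∈ Bd, f i := sum_nonneg fun i _ => Ed_nonneg _ _ _ _
    have h3 := Ed_nonneg z T (x + J * H) (2 * x)
    rw [hsum]
    refine le_trans ?_ (by linarith : ((Gb z T x H J).card : ℝ) * (((H : ℝ) * Rlo - E) / L' ^ T.card) ≤ _)
    rw [mul_div_assoc', div_le_div_iff_of_pos_right hL'p]
    have h4 : ((x : ℝ) - (T.card * Zm + 1) * H) ≤ (Gb z T x H J).card * H := by
      have h5 : (Bd.card : ℝ) * H ≤ T.card * Zm * H := mul_le_mul_of_nonneg_right hBdr hH0.le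
      have h6 : ((Gb z T x H J).card : ℝ) * H = J * H - Bd.card * H := by
        rw [← hcr]
        ring
      linarith
    have h5 := mul_le_mul_of_nonneg_right h4 hRlo
    have h6 : ((Gb z T x H J).card : ℝ) * E ≤ J * E := mul_le_mul_of_nonneg_right (by linarith) hE0
    linarith
  · have h1 : ∑ i ∈ Gb z T x H J, f i ≤ ((Gb z T x H J).card : ℝ) * (((H : ℝ) * Rhi + E) / L ^ T.card) := by
      rw [← nsmul_eq_mul]
      exact sum_le_card_nsmul _ _ _ fun i hi => (hgood i hi).2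
    have h2 : ∑ i ∈ Bd, f i ≤ (Bd.card : ℝ) * H := by
      rw [← nsmul_eq_mul]
      exact sum_le_card_nsmul _ _ _ fun i _ => hfb i
    rw [hsum]
    have h3 : ((Gb z T x H J).card : ℝ) * (((H : ℝ) * Rhi + E) / L ^ T.card) ≤ ((x : ℝ) * Rhi + J * E) / L ^ T.card := by
      rw [mul_div_assoc', div_le_div_iff_of_pos_right hLp]
      have h4 : ((Gb z T x H J).card : ℝ) * H ≤ x := by
        have : ((Gb z T x H J).card : ℝ) * H ≤ J * H := mul_le_mul_of_nonneg_right (by linarith) hH0.le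
        linarith
      have h5 := mul_le_mul_of_nonneg_right h4 hRhi
      have h6 : ((Gb z T x H J).card : ℝ) * E ≤ J * E := mul_le_mul_of_nonneg_right (by linarith) hE0
      linarith
    have h5 : (Bd.card : ℝ) * H ≤ T.card * Zm * H := mul_le_mul_of_nonneg_right hBdr hH0.le
    linarith

end Pool.Agent.D0H24.UT
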