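import Mathlib

/-!
# Integers avoiding residue classes modulo primes
-/

set_option autoImplicit false

namespace Pool.Agent.D0H24.UT

open Finset

/-- the number of residue classes `q mod p` with `p ∣ ∏ (q r + 1)` -/
def w (T : Finset ℕ) (p : ℕ) : ℕ := ((range p).filter (fun q => p ∣ ∏ r ∈ T, (q * r + 1))).card

/-- `q` is good for the primes of `F` and the sets `U p` -/
def good (U : ℕ → Finset ℕ) (F : Finset ℕ) (q : ℕ) : Prop := ∀ p ∈ F, ¬ p ∣ ∏ r ∈ U p, (q * r + 1)

instance (U : ℕ → Finset ℕ) (F : Finset ℕ) : DecidablePred (good U F) := fun q => by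
  unfold good
  infer_instance

lemma dvd_mod (V : Finset ℕ) (p q : ℕ) : p ∣ ∏ r ∈ V, (q * r + 1) ↔ p ∣ ∏ r ∈ V, (q % p * r + 1) := by
  have h : ∏ r ∈ V, (q * r + 1) ≡ ∏ r ∈ V, (q % p * r + 1) [MOD p] := by
    induction V using Finset.induction_on with
    | empty => simp [Nat.ModEq]
    | insert a s ha ih =>
      rw [prod_insert ha, prod_insert ha]
      exact ((((Nat.mod_modEq q p).symm).mul_right a).add_right 1).mul ih
  rw [← Nat.modEq_zero_iff_dvd, ← Nat.modEq_zero_iff_dvd]
  exact ⟨fun h2 => h.symm.trans h2, fun h2 => h.trans h2⟩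

lemma dvd_mod' (V : Finset ℕ) (p M q : ℕ) (h : p ∣ M) :
    p ∣ ∏ r ∈ V, (q * r + 1) ↔ p ∣ ∏ r ∈ V, (q % M * r + 1) := by
  rw [dvd_mod V p q, dvd_mod V p (q % M), Nat.mod_mod_of_dvd q h]

lemma good_mod (U : ℕ → Finset ℕ) (F : Finset ℕ) (M q : ℕ) (h : ∀ p ∈ F, p ∣ M) :
    good U F q ↔ good U F (q % M) := by
  unfold good
  constructor
  · intro h1 p hp h2
    exact h1 p hp ((dvd_mod' _ p M q (h p hp)).2 h2)
  · intro h1 p hp h2
    exact h1 p hp ((dvd_mod' _ p M q (h p hp)).1 h2)

lemma good_periodic (U : ℕ → Finset ℕ) (F : Finset ℕ) : Function.Periodic (good U F) (∏ p ∈ F, p) := by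
  intro q
  have h : ∀ p ∈ F, p ∣ ∏ p ∈ F, p := fun p hp => dvd_prod_of_mem _ hp
  apply propext
  rw [good_mod U F _ (q + ∏ p ∈ F, p) h, good_mod U F _ q h, Nat.add_mod_right]

lemma count_one (U : ℕ → Finset ℕ) (p : ℕ) : Nat.count (good U {p}) p + w (U p) p = p := by
  unfold w
  rw [Nat.count_eq_card_filter_range]
  have e : (range p).filter (good U {p}) = (range p).filter (fun q => ¬ p ∣ ∏ r ∈ U p, (q * r + 1)) := by
    apply filter_congr
    intro q _
    unfold good
    simp
  rw [e, add_comm, card_filter_add_card_filter_not, card_range]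

lemma count_mul (U : ℕ → Finset ℕ) (F : Finset ℕ) (p : ℕ) (hp : p.Prime) (hF : ∀ q ∈ F, q.Prime) (hpF : p ∉ F) :
    Nat.count (good U (insert p F)) (p * ∏ q ∈ F, q) =
      Nat.count (good U {p}) p * Nat.count (good U F) (∏ q ∈ F, q) := by
  set M := ∏ q ∈ F, q with hM
  have hM0 : 0 < M := prod_pos fun q hq => (hF q hq).pos
  have hab : Nat.Coprime p M := by
    apply Nat.Coprime.prod_right
    intro q hq
    rw [Nat.coprime_primes hp (hF q hq)]
    rintro rfl
    exact hpF hq
  have hsplit : ∀ n, good U (insert p F) n ↔ good U {p} n ∧ good U F n := by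
    intro n
    unfold good
    simp only [mem_insert, mem_singleton, forall_eq_or_imp, forall_eq]
  have hdvd1 : ∀ q ∈ ({p} : Finset ℕ), q ∣ p := fun q hq => by rw [mem_singleton.1 hq]
  have hdvd2 : ∀ q ∈ F, q ∣ M := fun q hq => dvd_prod_of_mem _ hq
  simp only [Nat.count_eq_card_filter_range]
  rw [← Finset.card_product]
  refine Finset.card_nbij (fun n => (n % p, n % M)) ?_ ?_ ?_
  · intro n hn
    simp only [Finset.coe_filter, Finset.mem_range, Set.mem_ofPred_eq] at hn
    obtain ⟨_, h2⟩ := hn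
    rw [hsplit] at h2
    refine Finset.mem_coe.2 (Finset.mem_product.2 ⟨Finset.mem_filter.2 ⟨Finset.mem_range.2 (Nat.mod_lt _ hp.pos), ?_⟩,
      Finset.mem_filter.2 ⟨Finset.mem_range.2 (Nat.mod_lt _ hM0), ?_⟩⟩)
    · exact (good_mod U {p} p n hdvd1).1 h2.1
    · exact (good_mod U F M n hdvd2).1 h2.2
  · intro n hn m hm h
    simp only [Finset.coe_filter, Finset.mem_range, Set.mem_ofPred_eq] at hn hm
    simp only [Prod.mk.injEq] at h
    have h3 : n ≡ m [MOD p * M] := (Nat.modEq_and_modEq_iff_modEq_mul hab).1 ⟨h.1, h.2⟩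
    have h4 : n % (p * M) = m % (p * M) := h3
    rwa [Nat.mod_eq_of_lt hn.1, Nat.mod_eq_of_lt hm.1] at h4
  · rintro ⟨u, v⟩ huv
    simp only [Finset.coe_product, Finset.coe_filter, Finset.mem_range, Set.mem_prod, Set.mem_ofPred_eq] at huv
    obtain ⟨⟨h1, h2⟩, ⟨h3, h4⟩⟩ := huv
    obtain ⟨n, hn1, hn2⟩ := Nat.chineseRemainder hab u v
    have k1 : n % (p * M) % p = u := by
      rw [Nat.mod_mod_of_dvd _ (Dvd.intro _ rfl), show n % p = u % p from hn1, Nat.mod_eq_of_lt h1]
    have k2 : n % (p * M) % M = v := by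
      rw [Nat.mod_mod_of_dvd _ (Dvd.intro_left _ rfl), show n % M = v % M from hn2, Nat.mod_eq_of_lt h3]
    refine ⟨n % (p * M), ?_, ?_⟩
    · simp only [Finset.coe_filter, Finset.mem_range, Set.mem_ofPred_eq]
      refine ⟨Nat.mod_lt _ (Nat.mul_pos hp.pos hM0), ?_⟩
      rw [hsplit]
      constructor
      · rw [good_mod U {p} p _ hdvd1, k1]; exact h2
      · rw [good_mod U F M _ hdvd2, k2]; exact h4
    · simp only [Prod.mk.injEq]
      exact ⟨k1, k2⟩

/-- the density of the good integers -/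
lemma count_dens (U : ℕ → Finset ℕ) (F : Finset ℕ) (hF : ∀ q ∈ F, q.Prime) :
    (Nat.count (good U F) (∏ q ∈ F, q) : ℝ) / ((∏ q ∈ F, q : ℕ) : ℝ) = ∏ p ∈ F, (1 - (w (U p) p : ℝ) / p) := by
  induction F using Finset.induction_on with
  | empty =>
    have : Nat.count (good U ∅) 1 = 1 := by
      rw [Nat.count_succ, Nat.count_zero, if_pos]
      unfold good
      simp
    simp [this]
  | insert p F hpF ih =>
    have hp := hF p (mem_insert_self _ _)
    have hF' : ∀ q ∈ F, q.Prime := fun q hq => hF q (mem_insert_of_mem hq)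
    have h1 := count_mul U F p hp hF' hpF
    rw [prod_insert hpF, prod_insert hpF, h1, ← ih hF']
    have h2 := count_one U p
    have hp0 : (0 : ℝ) < p := by exact_mod_cast hp.pos
    have h3 : (1 - (w (U p) p : ℝ) / p) = (Nat.count (good U {p}) p : ℝ) / p := by
      rw [eq_div_iff hp0.ne', sub_mul, div_mul_cancel₀ _ hp0.ne', one_mul]
      have : (Nat.count (good U {p}) p : ℝ) + (w (U p) p : ℝ) = p := by exact_mod_cast h2
      linarith
    rw [h3]
    have hM0 : (0 : ℝ) < ((∏ q ∈ F, q : ℕ) : ℝ) := by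
      have : 0 < ∏ q ∈ F, q := prod_pos fun q hq => (hF' q hq).pos
      exact_mod_cast this
    push_cast
    field_simp

/-- counting a periodic predicate -/
lemma count_periodic (p : ℕ → Prop) [DecidablePred p] (W : ℕ) (hW : 0 < W) (hp : Function.Periodic p W) (x : ℕ) :
    |(Nat.count p x : ℝ) - x * ((Nat.count p W : ℝ) / W)| ≤ W := by
  have h2 : ∀ q r : ℕ, Nat.count p (q * W + r) = q * Nat.count p W + Nat.count p r := by
    intro q r
    induction q with
    | zero => simp
    | succ q ih =>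
      have h3 : (fun k => p (W + k)) = p := by
        funext k
        rw [add_comm]
        exact hp k
      have : (q + 1) * W + r = W + (q * W + r) := by ring
      rw [this, Nat.count_add]
      simp only [h3, ih]
      ring
  have hWr : (0 : ℝ) < W := by exact_mod_cast hW
  have hcW : (Nat.count p W : ℝ) ≤ W := by exact_mod_cast Nat.count_le p (n := W)
  have h3 : Nat.count p x = (x / W) * Nat.count p W + Nat.count p (x % W) := by
    conv_lhs => rw [← Nat.div_add_mod' x W]
    exact h2 _ _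
  have h4 : (x : ℝ) = (x / W : ℕ) * W + (x % W : ℕ) := by exact_mod_cast (Nat.div_add_mod' x W).symm
  have h5 : (Nat.count p (x % W) : ℝ) ≤ (x % W : ℕ) := by exact_mod_cast Nat.count_le p (n := x % W)
  have h6 : ((x % W : ℕ) : ℝ) ≤ W := by exact_mod_cast (Nat.mod_lt x hW).le
  have e1 : (Nat.count p x : ℝ) - x * ((Nat.count p W : ℝ) / W) =
      (Nat.count p (x % W) : ℝ) - (x % W : ℕ) * ((Nat.count p W : ℝ) / W) := by
    rw [h3]
    push_cast
    conv_lhs => rw [h4]
    field_simp
    ring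
  have g1 : (0 : ℝ) ≤ (Nat.count p (x % W) : ℝ) := Nat.cast_nonneg _
  have g2 : (0 : ℝ) ≤ ((x % W : ℕ) : ℝ) := Nat.cast_nonneg _
  have g3 : (0 : ℝ) ≤ (Nat.count p W : ℝ) / W := by positivity
  have g4 : (Nat.count p W : ℝ) / W ≤ 1 := (div_le_one hWr).2 hcW
  have g5 : ((x % W : ℕ) : ℝ) * ((Nat.count p W : ℝ) / W) ≤ W := by
    calc _ ≤ ((x % W : ℕ) : ℝ) * 1 := mul_le_mul_of_nonneg_left g4 g2
      _ ≤ W := by linarith
  rw [e1, abs_le]
  constructor
  · linarith [mul_nonneg g2 g3]
  · linarith [mul_nonneg g2 g3]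

/-- the good integers of an interval -/
lemma count_Ico (U : ℕ → Finset ℕ) (F : Finset ℕ) (hF : ∀ q ∈ F, q.Prime) (a b : ℕ) (hab : a ≤ b) :
    |((((Ico a b).filter (good U F)).card : ℕ) : ℝ) - ((b : ℝ) - a) * ∏ p ∈ F, (1 - (w (U p) p : ℝ) / p)| ≤
      2 * ((∏ q ∈ F, q : ℕ) : ℝ) := by
  have hM0 : 0 < ∏ q ∈ F, q := prod_pos fun q hq => (hF q hq).pos
  have h1 := count_periodic (good U F) _ hM0 (good_periodic U F) a
  have h2 := count_periodic (good U F) _ hM0 (good_periodic U F) b
  rw [count_dens U F hF] at h1 h2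
  have h3 : Nat.count (good U F) b = Nat.count (good U F) a + ((Ico a b).filter (good U F)).card := by
    rw [Nat.count_eq_card_filter_range, Nat.count_eq_card_filter_range, ← card_union_of_disjoint]
    · congr 1
      rw [← filter_union]
      congr 1
      ext q
      simp only [mem_range, mem_union, mem_Ico]
      omega
    · apply disjoint_filter_filter
      rw [disjoint_left]
      intro q hq hq2
      rw [mem_range] at hq
      rw [mem_Ico] at hq2
      omega
  have h4 : (Nat.count (good U F) b : ℝ) = Nat.count (good U F) a + ((((Ico a b).filter (good U F)).card : ℕ) : ℝ) := by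
    exact_mod_cast h3
  rw [abs_le] at h1 h2 ⊢
  constructor
  · linarith [h1.1, h1.2, h2.1, h2.2]
  · linarith [h1.1, h1.2, h2.1, h2.2]

end Pool.Agent.D0H24.UT
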