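import Pool.Agent.D0H24.UT.Sml

/-!
# The laws
-/

set_option autoImplicit false
set_option linter.unusedSectionVars false

open MeasureTheory Filter
open scoped ENNReal Topology

namespace Pool.Agent.D0H24.UT

open Pool.Agent.R528.RM (dens In)
open Pool.Agent.D0H60.RMG (W W_pos W_ge W_mono dn Rough dn_nonneg dn_le)

variable {Ω : Type} {m0 : MeasurableSpace Ω} {μ : Measure Ω} [IsProbabilityMeasure μ]
  {ℱ : Filtration ℕ m0} {A : ℕ → Set Ω}

open Classical in
/-- the number of tuples -/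
noncomputable def Nc (A : ℕ → Set Ω) (x : ℕ) (T : Finset ℕ) (ω : Ω) : ℕ :=
  ((Finset.Ico x (2 * x)).filter (fun q => ∀ r ∈ T, ω ∈ A (q * r + 1))).card

lemma TD_count (ρ : ℕ → ℝ) (x : ℕ) (T : Finset ℕ) (ω : Ω) : TD A ρ x (2 * x) T ∅ ω = Nc A x T ω := by
  classical
  unfold TD Nc
  rw [Finset.card_filter]
  push_cast
  apply Finset.sum_congr rfl
  intro q _
  rw [Finset.prod_empty, mul_one]
  split_ifs with h
  · apply Finset.prod_eq_one
    intro r hr
    unfold In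
    rw [Set.indicator_of_mem (h r hr)]
  · push Not at h
    obtain ⟨r, hr, h2⟩ := h
    apply Finset.prod_eq_zero hr
    unfold In
    rw [Set.indicator_of_notMem h2]

lemma TD_Ed (z : ℕ → ℕ) (x : ℕ) (T : Finset ℕ) (ω : Ω) : TD A (rh z) x (2 * x) ∅ T ω = Ed z T x (2 * x) := by
  unfold TD Ed
  simp

lemma dn_le_one (z : ℕ → ℕ) (hz2 : ∀ᶠ n : ℕ in atTop, (z n : ℝ) ≤ Real.log n / 2) :
    ∀ᶠ n : ℕ in atTop, dn z n ≤ 1 := by
  filter_upwards [hz2, W_small, tlog.eventually_ge_atTop 1] with n h1 h2 h3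
  refine (dn_le z n).trans ?_
  rw [div_le_one (by linarith)]
  exact h2 (z n) (by linarith)

lemma prof_rh (z : ℕ → ℕ) (hz2 : ∀ᶠ n : ℕ in atTop, (z n : ℝ) ≤ Real.log n / 2)
    (hd : ∀ᵐ ω ∂μ, ∀ ε : ℝ, 0 < ε → ∀ᶠ n : ℕ in atTop, |dens μ ℱ A n ω - dn z (n + 1)| ≤ ε * dn z (n + 1)) :
    ∀ᵐ ω ∂μ, ∀ ε : ℝ, 0 < ε → ∀ᶠ n : ℕ in atTop, |dens μ ℱ A n ω - rh z (n + 1)| ≤ ε * rh z (n + 1) := by
  filter_upwards [hd] with ω hω ε hε
  filter_upwards [hω ε hε, (tendsto_add_atTop_nat 1).eventually (dn_le_one z hz2)] with n h1 h2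
  have e : rh z (n + 1) = dn z (n + 1) := min_eq_left h2
  rw [e]
  exact h1

lemma sandwich (M N E S ε e3 : ℝ) (hM : 0 ≤ M) (hS : 0 ≤ S) (hε : 0 < ε)
    (h1 : M * ((1 - min ε 1 / 16) * ((1 - min ε 1 / 16) * S) - min ε 1 / 16 * S) ≤ E)
    (h2 : E ≤ M * ((1 + min ε 1 / 16) * S + min ε 1 / 16 * S))
    (h3 : |N - E| ≤ e3 + min ε 1 / 16 * E) (h4 : e3 ≤ min ε 1 / 16 * (M * S)) : |N - M * S| ≤ ε * (M * S) := by
  obtain ⟨η, hη⟩ : ∃ η : ℝ, η = min ε 1 / 16 := ⟨_, rfl⟩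
  rw [← hη] at h1 h2 h3 h4
  have hη0 : 0 < η := by
    rw [hη]
    have : 0 < min ε 1 := lt_min hε one_pos
    positivity
  have hη1 : 16 * η ≤ 1 := by
    rw [hη]
    have := min_le_right ε 1
    linarith
  have hη2 : 16 * η ≤ ε := by
    rw [hη]
    have := min_le_left ε 1
    linarith
  have hMS : 0 ≤ M * S := mul_nonneg hM hS
  have e1 : M * ((1 - η) * ((1 - η) * S) - η * S) = (1 - 3 * η + η ^ 2) * (M * S) := by ring
  have e2 : M * ((1 + η) * S + η * S) = (1 + 2 * η) * (M * S) := by ring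
  rw [e1] at h1
  rw [e2] at h2
  have g1 : 0 ≤ η ^ 2 * (M * S) := by positivity
  have g2 : η * E ≤ η * ((1 + 2 * η) * (M * S)) := mul_le_mul_of_nonneg_left h2 hη0.le
  have g3 : η * ((1 + 2 * η) * (M * S)) ≤ η * (2 * (M * S)) := by
    apply mul_le_mul_of_nonneg_left _ hη0.le
    apply mul_le_mul_of_nonneg_right _ hMS
    linarith
  have g4 : 16 * η * (M * S) ≤ ε * (M * S) := mul_le_mul_of_nonneg_right hη2 hMS
  have g5 : 0 ≤ η * (M * S) := by positivity
  rw [abs_le] at h3 ⊢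
  constructor
  · linarith [h3.1]
  · linarith [h3.2]

lemma S_empty : S ∅ = 1 := by
  have h : ∀ p : Nat.Primes, (1 - (w ∅ p : ℝ) / ((p : ℕ) : ℝ)) / (1 - 1 / ((p : ℕ) : ℝ)) ^ (∅ : Finset ℕ).card = 1 := by
    intro p
    have h1 : w ∅ p = 0 := by
      have := w_le ∅ p.2
      rw [Finset.card_empty] at this
      omega
    rw [h1]
    simp
  unfold S
  rw [tprod_congr h, tprod_one]

/-- **The law with the full singular product.** -/
theorem law_pos (hA : ∀ n, MeasurableSet[ℱ n] (A n)) (z : ℕ → ℕ) (hz : Monotone z)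
    (hz2 : ∀ᶠ n : ℕ in atTop, (z n : ℝ) ≤ Real.log n / 2) (hdeep : Deep z) (hcop : ∀ n, ¬ Rough z n → A n = ∅)
    (hd : ∀ᵐ ω ∂μ, ∀ ε : ℝ, 0 < ε → ∀ᶠ n : ℕ in atTop, |dens μ ℱ A n ω - dn z (n + 1)| ≤ ε * dn z (n + 1)) :
    ∀ᵐ ω ∂μ, ∀ C l : ℕ, ∀ ε : ℝ, 0 < ε → ∀ᶠ x : ℕ in atTop, ∀ T : Finset ℕ,
      (∀ r ∈ T, 1 ≤ r ∧ (r : ℝ) ≤ Real.log x ^ C) → T.card = l →
      |(Nc A x T ω : ℝ) - x / Real.log x ^ l * S T| ≤ ε * (x / Real.log x ^ l * S T) := by
  filter_upwards [dil_law (μ := μ) hA (rh z) (rh_01 z) (prof_rh z hz2 hd)] with ω hω C l ε hε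
  rcases Nat.eq_zero_or_pos l with hl0 | hl0
  · subst hl0
    apply Eventually.of_forall
    intro x T _ hTc
    rw [Finset.card_eq_zero] at hTc
    subst hTc
    rw [S_empty]
    have hN : Nc A x ∅ ω = x := by
      classical
      unfold Nc
      rw [Finset.filter_true_of_mem (by simp), Nat.card_Ico]
      omega
    rw [hN]
    simp only [pow_zero, div_one, mul_one, sub_self, abs_zero]
    positivity
  obtain ⟨c, hc0, hc⟩ := S_low l
  obtain ⟨η, hη⟩ : ∃ η : ℝ, η = min ε 1 / 16 := ⟨_, rfl⟩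
  have hη0 : 0 < η := by
    rw [hη]
    have : 0 < min ε 1 := lt_min hε one_pos
    positivity
  have hη1 : 16 * η ≤ 1 := by
    rw [hη]
    have := min_le_right ε 1
    linarith
  obtain ⟨ε₂, hε₂, hε₂0, hε₂1, hε₂2⟩ : ∃ ε₂ : ℝ, ε₂ = min η (η * c) ∧ 0 < ε₂ ∧ ε₂ ≤ η ∧ ε₂ ≤ η * c :=
    ⟨_, rfl, lt_min hη0 (by positivity), min_le_left _ _, min_le_right _ _⟩
  filter_upwards [hω C l η hη0, eta_small z hdeep C l η hη0, Ed_asym z hz hz2 C l ε₂ hε₂0,
    rpow_log_le l (2 * l / (η * c)) (3 / 4) 1 (by norm_num), tloglog.eventually_ge_atTop 1,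
    eventually_ge_atTop 2] with x e1 e2 e3 e4 e5 e6 T hT hTl
  obtain ⟨y, hy1, hy2, hy3⟩ := e2
  have hx0 : (0 : ℝ) < x := by
    have : 0 < x := by omega
    exact_mod_cast this
  have hlog0 : 0 < Real.log (x : ℝ) := by
    have : (1 : ℝ) < x := by
      have : 1 < x := by omega
      exact_mod_cast this
    exact Real.log_pos this
  have hM0 : 0 < (x : ℝ) / Real.log x ^ l := by positivity
  have hT1 : ∀ r ∈ T, 1 ≤ r := fun r hr => (hT r hr).1
  have hne : T.Nonempty := Finset.card_pos.1 (by omega)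
  have hzmono : ∀ r ∈ T, ∀ a, x ≤ a → z x ≤ z (a * r + 1) := by
    intro r hr a ha
    apply hz
    have := hT1 r hr
    nlinarith
  rcases hc T hT1 hTl.le with ⟨⟨p, hp, hpl, hpw⟩, hS0⟩ | hSc
  · -- a local obstruction
    have hN : Nc A x T ω = 0 := by
      classical
      unfold Nc
      rw [Finset.card_eq_zero, Finset.filter_eq_empty_iff]
      intro q hq hall
      rw [Finset.mem_Ico] at hq
      have h1 : p ∣ ∏ r ∈ T, (q * r + 1) := by
        rw [dvd_mod]
        have h2 : (Finset.range p).filter (fun q => p ∣ ∏ r ∈ T, (q * r + 1)) = Finset.range p := by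
          apply Finset.eq_of_subset_of_card_le (Finset.filter_subset _ _)
          rw [Finset.card_range]
          unfold w at hpw
          exact hpw.ge
        have h3 : q % p ∈ (Finset.range p).filter (fun q => p ∣ ∏ r ∈ T, (q * r + 1)) := by
          rw [h2, Finset.mem_range]
          exact Nat.mod_lt _ hp.pos
        exact (Finset.mem_filter.1 h3).2
      rw [dvd_iff T hp] at h1
      obtain ⟨r, hr, h2⟩ := h1
      have h3 := hall r hr
      rw [hcop (q * r + 1) (by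
        intro hrough
        apply hrough p hp _ h2
        have := hzmono r hr q hq.1
        omega)] at h3
      exact h3
    rw [hN, hS0]
    simp
  · -- no local obstruction
    have hS0 : 0 < S T := lt_of_lt_of_le hc0 hSc
    have hR : ∀ a Zm, x ≤ a → a < 2 * x → (∀ r ∈ T, z (a * r + 1) ≤ Zm) →
        (1 - η) * S T ≤ Rb z T a Zm ∧ Rb z T a Zm ≤ (1 + η) * S T := by
      intro a Zm ha1 ha2 hZ
      obtain ⟨r₀, hr₀⟩ := hne
      have h1 := R_S l (z x) y _ (by omega) hy2 hy1 T hT1 hTl.le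
        (fun G hG => bd_few T l C x hTl e5 hT G hG) (pr Zm) (fun p hp => (mem_pr.1 hp).1) (by
          intro p hp
          rw [mem_pr] at hp ⊢
          exact ⟨hp.1, hp.2.trans ((hzmono r₀ hr₀ a ha1).trans (hZ r₀ hr₀))⟩) (Ub z T a)
        (fun p _ => Finset.filter_subset _ _) (by
          intro p hp
          unfold Ub
          rw [Finset.filter_true_of_mem]
          intro r hr
          exact hp.trans (hzmono r hr a ha1))
      have h2 : |Rb z T a Zm - S T| ≤ η * S T := h1.trans (mul_le_mul_of_nonneg_right hy3 hS0.le)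
      rw [abs_le] at h2
      constructor
      · linarith [h2.1]
      · linarith [h2.2]
    have hE := e3 T hT hTl ((1 - η) * S T) ((1 + η) * S T) (mul_nonneg (by linarith) hS0.le)
      (mul_nonneg (by linarith) hS0.le) hR
    have hN := e1 T hT hTl
    rw [TD_count, TD_Ed] at hN
    have hεS : ε₂ ≤ η * S T := hε₂2.trans (mul_le_mul_of_nonneg_left hSc hη0.le)
    have hErr : 2 * (l : ℝ) * (x : ℝ) ^ (3 / 4 : ℝ) ≤ η * (x / Real.log x ^ l * S T) := by
      have h1 : 2 * (l : ℝ) * (x : ℝ) ^ (3 / 4 : ℝ) ≤ η * (x / Real.log x ^ l * c) := by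
        rw [Real.rpow_one] at e4
        have h2 : η * (x / Real.log x ^ l * c) = (η * c) * x / Real.log x ^ l := by ring
        rw [h2, le_div_iff₀ (by positivity)]
        have h3 : 2 * (l : ℝ) / (η * c) * Real.log x ^ l * (x : ℝ) ^ (3 / 4 : ℝ) =
            2 * l * (x : ℝ) ^ (3 / 4 : ℝ) * Real.log x ^ l / (η * c) := by ring
        rw [h3, div_le_iff₀ (by positivity)] at e4
        linarith
      refine h1.trans (mul_le_mul_of_nonneg_left (mul_le_mul_of_nonneg_left hSc hM0.le) hη0.le)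
    have h1S : 0 ≤ (1 - η) * S T := mul_nonneg (by linarith) hS0.le
    apply sandwich (x / Real.log x ^ l) (Nc A x T ω) (Ed z T x (2 * x)) (S T) ε
      (2 * (l : ℝ) * (x : ℝ) ^ (3 / 4 : ℝ)) hM0.le hS0.le hε
    · rw [← hη]
      refine le_trans (mul_le_mul_of_nonneg_left ?_ hM0.le) hE.1
      have h2 := mul_le_mul_of_nonneg_right hε₂1 h1S
      linarith
    · rw [← hη]
      refine hE.2.trans (mul_le_mul_of_nonneg_left ?_ hM0.le)
      linarith
    · rw [← hη]
      exact hN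
    · rw [← hη]
      exact hErr

end Pool.Agent.D0H24.UT
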