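import Pool.Agent.D0H24.UT.Main

/-!
# Too few values if the sieve is too short
-/

set_option autoImplicit false
set_option linter.unusedSectionVars false

open MeasureTheory Filter
open scoped ENNReal Topology

namespace Pool.Agent.D0H24.UT

open Pool.Agent.R528.RM (dens In)
open Pool.Agent.D0H60.RMG (W W_pos W_ge W_mono dn Rough dn_nonneg dn_le)

lemma phi_empty (p : ℕ) (hp : p.Prime) : phi ∅ p = 1 := by
  unfold phi
  have h1 : w ∅ p = 0 := by
    have := w_le ∅ hp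
    rw [Finset.card_empty] at this
    omega
  rw [h1]
  simp

lemma phi_single {r p : ℕ} (hp : p.Prime) (h : ¬ p ∣ r) : phi {r} p = 1 := by
  obtain ⟨h0, h1, h2, h3⟩ := t_facts hp
  have hb : ¬ bd {r} p := by
    rintro (⟨s, hs, hd⟩ | ⟨s, hs, t, ht, hne, -⟩)
    · rw [Finset.mem_singleton] at hs
      rw [hs] at hd
      exact h hd
    · rw [Finset.mem_singleton] at hs ht
      exact hne (hs.trans ht.symm)
  have h4 := w_ge {r} hp hb
  have h5 := w_le {r} hp
  rw [Finset.card_singleton] at h4 h5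
  have h6 : w {r} p = 1 := le_antisymm h5 h4
  unfold phi
  rw [h6, Finset.card_singleton, pow_one, Nat.cast_one, div_self h3.ne']

lemma phi_single' {r p : ℕ} (hp : p.Prime) (h : p ∣ r) : phi {r} p = (1 - (p : ℝ)⁻¹)⁻¹ := by
  have h6 : w {r} p = 0 := by
    unfold w
    rw [Finset.card_eq_zero, Finset.filter_eq_empty_iff]
    intro q _ hd
    rw [Finset.prod_singleton] at hd
    have : p ∣ 1 := (Nat.dvd_add_right (dvd_mul_of_dvd_right h q)).1 hd
    exact hp.one_lt.ne' (Nat.dvd_one.1 this)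
  unfold phi
  rw [h6, Finset.card_singleton, pow_one]
  simp

/-- the product of the primes in an interval -/
def rr (z y : ℕ) : ℕ := ∏ p ∈ (pr y).filter (fun p => z < p), p

lemma rr_pos (z y : ℕ) : 1 ≤ rr z y :=
  Finset.prod_pos fun p hp => (mem_pr.1 (Finset.mem_filter.1 hp).1).1.pos

lemma rr_le (z y : ℕ) : rr z y ≤ 4 ^ y := by
  refine le_trans ?_ (prod_pr_le y)
  unfold rr
  apply Finset.prod_le_prod_of_subset_of_one_le' (Finset.filter_subset _ _)
  intro p hp _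
  exact (mem_pr.1 hp).1.pos

lemma dvd_rr {z y p : ℕ} (hp : p.Prime) : p ∣ rr z y ↔ z < p ∧ p ≤ y := by
  unfold rr
  rw [(Nat.Prime.prime hp).dvd_finsetProd_iff]
  constructor
  · rintro ⟨p', h1, h2⟩
    rw [Finset.mem_filter, mem_pr] at h1
    rw [(Nat.prime_dvd_prime_iff_eq hp h1.1.1).1 h2]
    exact ⟨h1.2, h1.1.2⟩
  · rintro ⟨h1, h2⟩
    exact ⟨p, Finset.mem_filter.2 ⟨mem_pr.2 ⟨hp, h2⟩, h1⟩, dvd_rfl⟩

lemma Rb_rr (z : ℕ → ℕ) (z₀ y a Zm : ℕ) (ha : z (a * rr z₀ y + 1) ≤ z₀) : Rb z {rr z₀ y} a Zm = 1 := by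
  unfold Rb
  apply Finset.prod_eq_one
  intro p hp
  have hpp := (mem_pr.1 hp).1
  unfold Ub
  rw [Finset.filter_singleton]
  split_ifs with h
  · apply phi_single hpp
    rw [dvd_rr hpp]
    omega
  · exact phi_empty p hpp

lemma S_rr (z₀ y : ℕ) (hzy : z₀ ≤ y) (hy : 1 ≤ y) : W y / W z₀ * (1 - 1 / y) ≤ S {rr z₀ y} := by
  have hT1 : ∀ r ∈ ({rr z₀ y} : Finset ℕ), 1 ≤ r := by
    intro r hr
    rw [Finset.mem_singleton] at hr
    rw [hr]
    exact rr_pos _ _
  have hm : ∀ G' : Finset ℕ, (∀ p ∈ G', p.Prime ∧ bd {rr z₀ y} p) → G'.card ≤ (DD {rr z₀ y}).primeFactors.card := by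
    intro G' hG'
    apply Finset.card_le_card
    intro p hp
    rw [Nat.mem_primeFactors]
    exact ⟨(hG' p hp).1, bd_dvd _ p (hG' p hp).2, (DD_pos _ hT1).ne'⟩
  have h1 := (S_bounds 1 y y _ hy hy le_rfl {rr z₀ y} hT1 (by simp) hm).1
  have e : Az {rr z₀ y} y = W y / W z₀ := by
    unfold Az
    rw [prod_split z₀ (pr y) (fun p hp => (mem_pr.1 hp).1) (by
      intro p hp
      rw [mem_pr] at hp ⊢
      exact ⟨hp.1, hp.2.trans hzy⟩), ← W_split z₀ y hzy]
    have e1 : ∏ p ∈ pr z₀, phi {rr z₀ y} p = 1 := by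
      apply Finset.prod_eq_one
      intro p hp
      rw [mem_pr] at hp
      apply phi_single hp.1
      rw [dvd_rr hp.1]
      omega
    rw [e1, one_mul]
    apply Finset.prod_congr rfl
    intro p hp
    rw [Finset.mem_filter, mem_pr] at hp
    apply phi_single' hp.1.1
    rw [dvd_rr hp.1.1]
    exact ⟨hp.2, hp.1.2⟩
  rw [e] at h1
  simpa using h1

/-- the scale -/
noncomputable def xs (n : ℕ) : ℕ := ⌊(n : ℝ) / Real.log n ^ 2⌋₊

lemma xs_facts : ∀ᶠ n : ℕ in atTop, (n : ℝ) ^ (1 / 2 : ℝ) ≤ xs n ∧ (xs n : ℝ) ≤ n / Real.log n ^ 2 ∧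
    Real.log n / 2 ≤ Real.log (xs n) := by
  filter_upwards [log_pow_le 2 2 (1 / 2) (by norm_num), tlog.eventually_ge_atTop 1, eventually_ge_atTop 2] with n h1 h2 h3
  have hn : (2 : ℝ) ≤ n := by exact_mod_cast h3
  have hn0 : (0 : ℝ) < n := by linarith
  have hq : 2 * (n : ℝ) ^ (1 / 2 : ℝ) ≤ n / Real.log n ^ 2 := by
    rw [le_div_iff₀ (by positivity)]
    have e : (n : ℝ) = (n : ℝ) ^ (1 / 2 : ℝ) * (n : ℝ) ^ (1 / 2 : ℝ) := by
      rw [← Real.rpow_add hn0]
      norm_num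
    have h5 : (n : ℝ) ^ (1 / 2 : ℝ) * (2 * Real.log n ^ 2) ≤ (n : ℝ) ^ (1 / 2 : ℝ) * (n : ℝ) ^ (1 / 2 : ℝ) :=
      mul_le_mul_of_nonneg_left h1 (by positivity)
    rw [← e] at h5
    linarith
  have h1n : 1 ≤ (n : ℝ) ^ (1 / 2 : ℝ) := Real.one_le_rpow (by linarith) (by norm_num)
  have hlow : (n : ℝ) ^ (1 / 2 : ℝ) ≤ xs n := by
    unfold xs
    have := Nat.lt_floor_add_one ((n : ℝ) / Real.log n ^ 2)
    linarith
  refine ⟨hlow, Nat.floor_le (by positivity), ?_⟩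
  have h6 := Real.log_le_log (by positivity) hlow
  rw [Real.log_rpow hn0] at h6
  linarith

lemma xs_tendsto : Tendsto xs atTop atTop := by
  rw [tendsto_atTop]
  intro b
  have h1 : ∀ᶠ n : ℕ in atTop, (b : ℝ) ≤ (n : ℝ) ^ (1 / 2 : ℝ) :=
    ((tendsto_rpow_atTop (by norm_num : (0 : ℝ) < 1 / 2)).comp (tendsto_natCast_atTop_atTop (R := ℝ))).eventually_ge_atTop _
  filter_upwards [h1, xs_facts] with n h2 h3
  exact_mod_cast h2.trans h3.1

variable {Ω : Type} {m0 : MeasurableSpace Ω} {μ : Measure Ω} [IsProbabilityMeasure μ]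
  {ℱ : Filtration ℕ m0} {A : ℕ → Set Ω}

/-- **Too few values.** -/
theorem law_neg (hA : ∀ n, MeasurableSet[ℱ n] (A n)) (z : ℕ → ℕ) (hz : Monotone z)
    (hz2 : ∀ᶠ n : ℕ in atTop, (z n : ℝ) ≤ Real.log n / 2) (hdeep : ¬ Deep z)
    (hd : ∀ᵐ ω ∂μ, ∀ ε : ℝ, 0 < ε → ∀ᶠ n : ℕ in atTop, |dens μ ℱ A n ω - dn z (n + 1)| ≤ ε * dn z (n + 1)) :
    ∃ κ : ℝ, 0 < κ ∧ ∀ᵐ ω ∂μ, ∀ b : ℝ, 0 < b → ∃ᶠ x : ℕ in atTop, ∃ r : ℕ, 1 ≤ r ∧ (r : ℝ) ≤ b * Real.log x ∧
      (Nc A x {r} ω : ℝ) ≤ (1 - κ) * (x / Real.log x * S {r}) := by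
  -- the exponent
  obtain ⟨δ, hδ0, hδ1, hδ⟩ : ∃ δ : ℝ, 0 < δ ∧ δ ≤ 1 / 2 ∧ ∃ᶠ n : ℕ in atTop, (z n : ℝ) < Real.log (Real.log n) ^ (1 - δ) := by
    unfold Deep at hdeep
    push Not at hdeep
    obtain ⟨δ, hδ0, hδ⟩ := hdeep
    refine ⟨min δ (1 / 2), lt_min hδ0 (by norm_num), min_le_right _ _, ?_⟩
    refine (hδ.and_eventually (tloglog.eventually_ge_atTop 1)).mono ?_
    rintro n ⟨h1, h2⟩
    refine h1.trans_le ?_
    apply Real.rpow_le_rpow_of_exponent_le h2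
    have := min_le_left δ (1 / 2)
    linarith
  set k := δ / 4 with hk
  have hk0 : 0 < k := by positivity
  have hk1 : k ≤ 1 / 8 := by linarith
  refine ⟨k / 4, by positivity, ?_⟩
  have hs : 0 < 1 - δ := by linarith
  have ht : 0 < 1 - δ / 2 := by linarith
  filter_upwards [dil_law (μ := μ) hA (rh z) (rh_01 z) (prof_rh z hz2 hd)] with ω hω b hb
  -- facts about large `x`
  have hX : ∀ᶠ x : ℕ in atTop, (∀ r : ℕ, 1 ≤ r → (r : ℝ) ≤ b * Real.log x →
      (∀ a Zm, x ≤ a → a < 2 * x → (∀ r' ∈ ({r} : Finset ℕ), z (a * r' + 1) ≤ Zm) → (1 : ℝ) ≤ Rb z {r} a Zm ∧ Rb z {r} a Zm ≤ 1) →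
      (Nc A x {r} ω : ℝ) ≤ (1 + k / 4) * (x / Real.log x)) := by
    filter_upwards [hω 2 1 (k / 32) (by positivity), Ed_asym z hz hz2 2 1 (k / 32) (by positivity),
      rpow_log_le 1 (2 / (k / 32)) (3 / 4) 1 (by norm_num), tlog.eventually_ge_atTop (b + 1), eventually_ge_atTop 2]
      with x e1 e2 e3 e4 e5 r hr1 hr2 hR
    have hx0 : (0 : ℝ) < x := by
      have : 0 < x := by omega
      exact_mod_cast this
    have hlog1 : 1 ≤ Real.log (x : ℝ) := by linarith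
    have hT : ∀ r' ∈ ({r} : Finset ℕ), 1 ≤ r' ∧ (r' : ℝ) ≤ Real.log x ^ 2 := by
      intro r' hr'
      rw [Finset.mem_singleton] at hr'
      rw [hr']
      refine ⟨hr1, hr2.trans ?_⟩
      rw [sq]
      exact mul_le_mul_of_nonneg_right (by linarith) (by linarith)
    have g1 := e1 {r} hT (Finset.card_singleton r)
    have g2 := (e2 {r} hT (Finset.card_singleton r) 1 1 zero_le_one zero_le_one hR).2
    rw [TD_count, TD_Ed] at g1
    rw [Nat.cast_one, mul_one] at g1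
    rw [pow_one] at g2 e3
    rw [Real.rpow_one] at e3
    obtain ⟨M, hM⟩ : ∃ M : ℝ, M = (x : ℝ) / Real.log x := ⟨_, rfl⟩
    have hM0 : 0 < M := by
      rw [hM]
      positivity
    rw [← hM] at g2 ⊢
    have g3 : 2 * (x : ℝ) ^ (3 / 4 : ℝ) ≤ k / 32 * M := by
      rw [hM, mul_div_assoc', le_div_iff₀ (by linarith)]
      have h3 : 2 / (k / 32) * Real.log x * (x : ℝ) ^ (3 / 4 : ℝ) = 2 * (x : ℝ) ^ (3 / 4 : ℝ) * Real.log x / (k / 32) := by ring
      rw [h3, div_le_iff₀ (by positivity)] at e3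
      linarith
    rw [abs_le] at g1
    have g4 : k / 32 * Ed z {r} x (2 * x) ≤ k / 32 * (M * (1 + k / 32)) := mul_le_mul_of_nonneg_left g2 (by positivity)
    have g5 : k / 32 * (M * (1 + k / 32)) ≤ k / 32 * (M * 2) := by
      apply mul_le_mul_of_nonneg_left _ (by positivity)
      apply mul_le_mul_of_nonneg_left _ hM0.le
      linarith
    have g6 : 0 < k * M := by positivity
    linarith [g1.2]
  -- facts about large `n`
  have hW : ∀ᶠ u : ℝ in atTop, 1 + k < W ⌈u ^ (1 - δ / 2)⌉₊ / W ⌈u ^ (1 - δ)⌉₊ * (1 - 1 / (⌈u ^ (1 - δ / 2)⌉₊ : ℝ)) := by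
    have h1 := W_ratio hs ht
    have h2 : Tendsto (fun u : ℝ => 1 - 1 / (⌈u ^ (1 - δ / 2)⌉₊ : ℝ)) atTop (nhds (1 - 0)) :=
      tendsto_const_nhds.sub (tendsto_const_nhds.div_atTop ((tendsto_natCast_atTop_atTop (R := ℝ)).comp (ceil_tendsto ht)))
    have h3 := h1.mul h2
    rw [sub_zero, mul_one] at h3
    apply h3.eventually (lt_mem_nhds _)
    rw [lt_div_iff₀ hs]
    nlinarith
  have hfour : ∀ᶠ u : ℝ in atTop, (u ^ (1 - δ / 2) + 1) * 2 ≤ u + Real.log (b / 2) := by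
    have h1 : Tendsto (fun u : ℝ => u ^ (1 - δ / 2) / u) atTop (nhds 0) := by
      have h2 := tendsto_rpow_neg_atTop (show 0 < δ / 2 by positivity)
      refine h2.congr' ?_
      filter_upwards [eventually_gt_atTop 0] with u hu
      rw [eq_div_iff hu.ne']
      nth_rewrite 2 [← Real.rpow_one u]
      rw [← Real.rpow_add hu]
      congr 1
      ring
    filter_upwards [h1.eventually (gt_mem_nhds (show (0 : ℝ) < 1 / 4 by norm_num)), eventually_gt_atTop 0,
      eventually_ge_atTop (4 - 2 * Real.log (b / 2))] with u hu hu0 hu2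
    rw [div_lt_iff₀ hu0] at hu
    linarith
  have hmain : ∃ᶠ n : ℕ in atTop, (∃ r : ℕ, 1 ≤ r ∧ (r : ℝ) ≤ b * Real.log (xs n) ∧
      (Nc A (xs n) {r} ω : ℝ) ≤ (1 - k / 4) * ((xs n : ℕ) / Real.log (xs n) * S {r})) := by
    refine (hδ.and_eventually ((xs_facts.and (xs_tendsto.eventually hX)).and ((tloglog.eventually hW).and
      ((tloglog.eventually hfour).and ((tloglog.eventually_ge_atTop 1).and ((tlog.eventually_ge_atTop (4 * b + 2)).and
      (xs_tendsto.eventually_ge_atTop 3))))))).mono ?_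
    rintro n ⟨hzn, ⟨⟨⟨hx1, hx2, hx3⟩, hXn⟩, hWn, hfn, hu1, hLn, hx4⟩⟩
    set u := Real.log (Real.log (n : ℝ)) with hu
    set y := ⌈u ^ (1 - δ / 2)⌉₊ with hy
    set z₀ := z n with hz₀
    have hu0 : 0 < u := by linarith
    have hLn0 : 0 < Real.log (n : ℝ) := by linarith
    have hypow : 1 ≤ u ^ (1 - δ / 2) := Real.one_le_rpow hu1 ht.le
    have hy1 : 1 ≤ y := Nat.one_le_ceil_iff.2 (by linarith)
    have hzy' : (z₀ : ℝ) ≤ u ^ (1 - δ / 2) :=
      hzn.le.trans (Real.rpow_le_rpow_of_exponent_le hu1 (by linarith))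
    have hzy : z₀ ≤ y := by
      have : (z₀ : ℝ) ≤ y := hzy'.trans (Nat.le_ceil _)
      exact_mod_cast this
    have hzc : z₀ ≤ ⌈u ^ (1 - δ)⌉₊ := by
      have : (z₀ : ℝ) ≤ ⌈u ^ (1 - δ)⌉₊ := hzn.le.trans (Nat.le_ceil _)
      exact_mod_cast this
    have hr1 := rr_pos z₀ y
    have hr2 : (rr z₀ y : ℝ) ≤ b / 2 * Real.log n := by
      have h1 : (rr z₀ y : ℝ) ≤ (4 : ℝ) ^ y := by exact_mod_cast rr_le z₀ y
      refine h1.trans ?_
      have h2 : (4 : ℝ) ^ y = Real.exp (y * Real.log 4) := by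
        rw [Real.exp_nat_mul, Real.exp_log (by norm_num)]
      have h3 : b / 2 * Real.log n = Real.exp (u + Real.log (b / 2)) := by
        have e1 : Real.exp u = Real.log n := Real.exp_log hLn0
        have e2 : Real.exp (Real.log (b / 2)) = b / 2 := Real.exp_log (by positivity)
        rw [Real.exp_add, e1, e2, mul_comm]
      rw [h2, h3]
      apply Real.exp_le_exp.2
      refine le_trans ?_ hfn
      have h4 : (y : ℝ) ≤ u ^ (1 - δ / 2) + 1 := (Nat.ceil_lt_add_one (by positivity)).le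
      have h5 : Real.log 4 ≤ 2 := by
        have : Real.log 4 = 2 * Real.log 2 := by
          rw [show (4 : ℝ) = 2 ^ 2 by norm_num, Real.log_pow]
          norm_num
        rw [this]
        linarith [Real.log_two_lt_d9]
      exact mul_le_mul h4 h5 (Real.log_nonneg (by norm_num)) (by positivity)
    have hr3 : (rr z₀ y : ℝ) ≤ b * Real.log (xs n) := by
      refine hr2.trans ?_
      have := mul_le_mul_of_nonneg_left hx3 hb.le
      linarith
    refine ⟨rr z₀ y, hr1, hr3, ?_⟩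
    have hxsn : (xs n : ℝ) ≤ n := by
      refine hx2.trans ?_
      rw [div_le_iff₀ (by positivity)]
      have : (1 : ℝ) ≤ Real.log n ^ 2 := one_le_pow₀ (by linarith)
      exact le_mul_of_one_le_right (Nat.cast_nonneg _) this
    have hRb : ∀ a Zm, xs n ≤ a → a < 2 * xs n → (∀ r' ∈ ({rr z₀ y} : Finset ℕ), z (a * r' + 1) ≤ Zm) →
        (1 : ℝ) ≤ Rb z {rr z₀ y} a Zm ∧ Rb z {rr z₀ y} a Zm ≤ 1 := by
      intro a Zm _ ha2 _
      have h1 : a * rr z₀ y + 1 ≤ n := by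
        have h2 : ((a * rr z₀ y + 1 : ℕ) : ℝ) ≤ n := by
          have h3 : (a : ℝ) ≤ 2 * xs n - 1 := by
            have : a + 1 ≤ 2 * xs n := ha2
            have : ((a + 1 : ℕ) : ℝ) ≤ ((2 * xs n : ℕ) : ℝ) := by exact_mod_cast this
            push_cast at this
            linarith
          have h4 : (1 : ℝ) ≤ rr z₀ y := by exact_mod_cast hr1
          have h5 : (a : ℝ) * rr z₀ y + 1 ≤ 2 * xs n * rr z₀ y := by nlinarith
          have h6 : 2 * (xs n : ℝ) * rr z₀ y ≤ 2 * (n / Real.log n ^ 2) * (b / 2 * Real.log n) :=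
            mul_le_mul (by linarith) hr2 (by linarith) (by positivity)
          have h7 : 2 * ((n : ℝ) / Real.log n ^ 2) * (b / 2 * Real.log n) = n * (b / Real.log n) := by
            field_simp
          have h8 : b / Real.log n ≤ 1 := by
            rw [div_le_one hLn0]
            linarith
          have h9 : (n : ℝ) * (b / Real.log n) ≤ n * 1 := mul_le_mul_of_nonneg_left h8 (Nat.cast_nonneg _)
          push_cast
          linarith
        exact_mod_cast h2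
      have h2 : Rb z {rr z₀ y} a Zm = 1 := Rb_rr z z₀ y a Zm (hz h1)
      rw [h2]
      exact ⟨le_rfl, le_rfl⟩
    have hN := hXn (rr z₀ y) hr1 hr3 hRb
    have hS : 1 + k ≤ S {rr z₀ y} := by
      refine le_trans ?_ (S_rr z₀ y hzy hy1)
      refine hWn.le.trans ?_
      apply mul_le_mul_of_nonneg_right
      · exact div_le_div_of_nonneg_left (W_pos _).le (W_pos _) (W_mono hzc)
      · have : (1 : ℝ) ≤ y := by exact_mod_cast hy1
        have h2 : 1 / (y : ℝ) ≤ 1 := by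
          rw [div_le_one (by linarith)]
          exact this
        linarith
    have hlogx : 0 < Real.log (xs n : ℝ) := by
      apply Real.log_pos
      have : 1 < xs n := by omega
      exact_mod_cast this
    have hM0 : 0 < ((xs n : ℕ) : ℝ) / Real.log (xs n) := by
      have : (0 : ℝ) < xs n := by
        have : 0 < xs n := by omega
        exact_mod_cast this
      positivity
    obtain ⟨M, hM⟩ : ∃ M : ℝ, M = ((xs n : ℕ) : ℝ) / Real.log (xs n) := ⟨_, rfl⟩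
    rw [← hM] at hN hM0 ⊢
    refine hN.trans ?_
    have h1 : (1 + k / 4) ≤ (1 - k / 4) * (1 + k) := by nlinarith
    have h2 : (1 - k / 4) * (1 + k) ≤ (1 - k / 4) * S {rr z₀ y} := mul_le_mul_of_nonneg_left hS (by linarith)
    have h3 := mul_le_mul_of_nonneg_right (h1.trans h2) hM0.le
    linarith
  exact xs_tendsto.frequently hmain

end Pool.Agent.D0H24.UT
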