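import Pool.Agent.D0H24.UT.Neg

/-!
# Real `x`
-/

set_option autoImplicit false
set_option linter.unusedSectionVars false

open Filter

namespace Pool.Agent.D0H24.UT

/-- the number of tuples of members of `A` -/
noncomputable def Nr (A : Set ℕ) (x : ℝ) (T : Finset ℕ) : ℕ :=
  {q : ℕ | x ≤ q ∧ (q : ℝ) < 2 * x ∧ ∀ r ∈ T, q * r + 1 ∈ A}.ncard

open Classical in
/-- the number for integers `x` -/
noncomputable def Nn (A : Set ℕ) (x : ℕ) (T : Finset ℕ) : ℕ :=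
  ((Finset.Ico x (2 * x)).filter (fun q => ∀ r ∈ T, q * r + 1 ∈ A)).card

lemma Nr_nat (A : Set ℕ) (x : ℕ) (T : Finset ℕ) : Nr A x T = Nn A x T := by
  classical
  unfold Nr Nn
  rw [← Set.ncard_coe_finset]
  congr 1
  ext q
  rw [Finset.coe_filter]
  simp only [Set.mem_ofPred_eq, Finset.mem_Ico]
  constructor
  · rintro ⟨h1, h2, h3⟩
    exact ⟨⟨by exact_mod_cast h1, by exact_mod_cast h2⟩, h3⟩
  · rintro ⟨⟨h1, h2⟩, h3⟩
    exact ⟨by exact_mod_cast h1, by exact_mod_cast h2, h3⟩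

lemma Nr_compare (A : Set ℕ) (x : ℝ) (hx : 0 < x) (T : Finset ℕ) :
    Nr A x T ≤ Nn A ⌈x⌉₊ T ∧ Nn A ⌈x⌉₊ T ≤ Nr A x T + 1 := by
  classical
  set a := ⌈x⌉₊ with ha
  have h1 : x ≤ a := Nat.le_ceil x
  have h2 : (a : ℝ) < x + 1 := Nat.ceil_lt_add_one hx.le
  have hsub : {q : ℕ | x ≤ q ∧ (q : ℝ) < 2 * x ∧ ∀ r ∈ T, q * r + 1 ∈ A} ⊆
      ((Finset.Ico a (2 * a)).filter (fun q => ∀ r ∈ T, q * r + 1 ∈ A) : Finset ℕ) := by
    rintro q ⟨g1, g2, g3⟩
    rw [Finset.mem_coe, Finset.mem_filter, Finset.mem_Ico]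
    refine ⟨⟨Nat.ceil_le.2 g1, ?_⟩, g3⟩
    have : (q : ℝ) < ((2 * a : ℕ) : ℝ) := by
      push_cast
      linarith
    exact_mod_cast this
  constructor
  · unfold Nr Nn
    rw [← Set.ncard_coe_finset]
    exact Set.ncard_le_ncard hsub (Finset.finite_toSet _)
  · unfold Nn
    have hfin : {q : ℕ | x ≤ q ∧ (q : ℝ) < 2 * x ∧ ∀ r ∈ T, q * r + 1 ∈ A}.Finite :=
      (Finset.finite_toSet _).subset hsub
    have hsub2 : (((Finset.Ico a (2 * a)).filter (fun q => ∀ r ∈ T, q * r + 1 ∈ A) : Finset ℕ) : Set ℕ) ⊆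
        insert (2 * a - 1) {q : ℕ | x ≤ q ∧ (q : ℝ) < 2 * x ∧ ∀ r ∈ T, q * r + 1 ∈ A} := by
      intro q hq
      rw [Finset.mem_coe, Finset.mem_filter, Finset.mem_Ico] at hq
      obtain ⟨⟨g1, g2⟩, g3⟩ := hq
      rw [Set.mem_insert_iff]
      by_cases hc : q = 2 * a - 1
      · exact Or.inl hc
      · right
        refine ⟨h1.trans (by exact_mod_cast g1), ?_, g3⟩
        have h3 : q + 2 ≤ 2 * a := by omega
        have h4 : ((q + 2 : ℕ) : ℝ) ≤ ((2 * a : ℕ) : ℝ) := by exact_mod_cast h3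
        push_cast at h4
        linarith
    rw [← Set.ncard_coe_finset]
    refine (Set.ncard_le_ncard hsub2 (hfin.insert _)).trans ?_
    exact Set.ncard_insert_le _ _

/-- the main term at `⌈x⌉` -/
lemma main_ratio (l : ℕ) : Tendsto (fun x : ℝ => ((⌈x⌉₊ : ℝ) / Real.log (⌈x⌉₊ : ℝ) ^ l) / (x / Real.log x ^ l)) atTop (nhds 1) := by
  have h1 : Tendsto (fun x : ℝ => (⌈x⌉₊ : ℝ) / x) atTop (nhds 1) := tendsto_nat_ceil_div_atTop (R := ℝ)
  have h2 : Tendsto (fun x : ℝ => Real.log (⌈x⌉₊ : ℝ) / Real.log x) atTop (nhds 1) := by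
    have := ceil_log (t := 1) one_pos
    simpa using this
  have h3 := h1.div (h2.pow l) (by simp)
  simp only [one_pow, div_one] at h3
  refine h3.congr' ?_
  filter_upwards [eventually_gt_atTop 1] with x hx
  have hl : 0 < Real.log x := Real.log_pos hx
  have hc : 0 < Real.log (⌈x⌉₊ : ℝ) := Real.log_pos (hx.trans_le (Nat.le_ceil x))
  have hx0 : 0 < x := by linarith
  simp only [Pi.div_apply]
  rw [div_pow]
  field_simp

/-- from integers to real numbers -/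
lemma real_of_nat (A : Set ℕ) (C l : ℕ)
    (h : ∀ ε : ℝ, 0 < ε → ∀ᶠ x : ℕ in atTop, ∀ T : Finset ℕ, (∀ r ∈ T, 1 ≤ r ∧ (r : ℝ) ≤ Real.log x ^ C) →
      T.card = l → |(Nn A x T : ℝ) - x / Real.log x ^ l * S T| ≤ ε * (x / Real.log x ^ l * S T))
    (ε : ℝ) (hε : 0 < ε) : ∀ᶠ x : ℝ in atTop, ∀ T : Finset ℕ, (∀ r ∈ T, 1 ≤ r ∧ (r : ℝ) ≤ Real.log x ^ C) →
      T.card = l → |(Nr A x T : ℝ) - x / Real.log x ^ l * S T| ≤ ε * (x / Real.log x ^ l * S T) := by
  obtain ⟨c, hc0, hc⟩ := S_low l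
  obtain ⟨η, hη⟩ : ∃ η : ℝ, η = min ε 1 / 4 := ⟨_, rfl⟩
  have hη0 : 0 < η := by
    rw [hη]
    have : 0 < min ε 1 := lt_min hε one_pos
    positivity
  have hη1 : 4 * η ≤ 1 := by
    rw [hη]
    have := min_le_right ε 1
    linarith
  have hη2 : 4 * η ≤ ε := by
    rw [hη]
    have := min_le_left ε 1
    linarith
  have hratio := (main_ratio l).eventually (Metric.ball_mem_nhds (1 : ℝ) hη0)
  have hbig : ∀ᶠ x : ℕ in atTop, 2 / (η * c) * Real.log x ^ l * (x : ℝ) ^ (0 : ℝ) ≤ (x : ℝ) ^ (1 : ℝ) :=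
    rpow_log_le l (2 / (η * c)) 0 1 one_pos
  filter_upwards [tendsto_nat_ceil_atTop.eventually (h η hη0), hratio, tendsto_nat_ceil_atTop.eventually hbig,
    eventually_gt_atTop 1] with x h1 h2 h3 h4 T hT hTl
  set a := ⌈x⌉₊ with ha
  have hx0 : 0 < x := by linarith
  have hxa : x ≤ a := Nat.le_ceil x
  have hl : 0 < Real.log x := Real.log_pos h4
  have hla : 0 < Real.log (a : ℝ) := Real.log_pos (h4.trans_le hxa)
  have ha0 : (0 : ℝ) < a := by linarith
  obtain ⟨M, hM⟩ : ∃ M : ℝ, M = x / Real.log x ^ l := ⟨_, rfl⟩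
  obtain ⟨M', hM'⟩ : ∃ M' : ℝ, M' = (a : ℝ) / Real.log a ^ l := ⟨_, rfl⟩
  have hM0 : 0 < M := by
    rw [hM]
    positivity
  have hM'0 : 0 < M' := by
    rw [hM']
    positivity
  have hTa : ∀ r ∈ T, 1 ≤ r ∧ (r : ℝ) ≤ Real.log a ^ C := fun r hr =>
    ⟨(hT r hr).1, (hT r hr).2.trans (pow_le_pow_left₀ hl.le (Real.log_le_log hx0 hxa) C)⟩
  have g1 := h1 T hTa hTl
  obtain ⟨g2, g3⟩ := Nr_compare A x hx0 T
  rw [← ha] at g2 g3
  have hT1 : ∀ r ∈ T, 1 ≤ r := fun r hr => (hT r hr).1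
  rw [← hM'] at g1
  rw [← hM]
  rcases hc T hT1 hTl.le with ⟨-, hS0⟩ | hSc
  · rw [hS0, mul_zero, mul_zero, sub_zero] at g1
    rw [hS0, mul_zero, mul_zero, sub_zero]
    have g4 : (Nn A a T : ℝ) ≤ 0 := (le_abs_self _).trans g1
    have g5 : (Nr A x T : ℝ) ≤ Nn A a T := by exact_mod_cast g2
    rw [abs_of_nonneg (Nat.cast_nonneg _)]
    linarith
  · have hS0 : 0 < S T := lt_of_lt_of_le hc0 hSc
    rw [← hM, ← hM', Real.dist_eq, abs_lt] at h2
    have r1 : M' ≤ (1 + η) * M := by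
      have := h2.2
      have h5 : M' / M < 1 + η := by linarith
      rw [div_lt_iff₀ hM0] at h5
      exact h5.le
    have r2 : (1 - η) * M ≤ M' := by
      have := h2.1
      have h5 : 1 - η < M' / M := by linarith
      rw [lt_div_iff₀ hM0] at h5
      exact h5.le
    rw [Real.rpow_zero, mul_one, Real.rpow_one] at h3
    have r3 : 2 ≤ η * (M' * S T) := by
      have h5 : 2 ≤ η * c * M' := by
        rw [hM', mul_div_assoc', le_div_iff₀ (by positivity)]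
        have h6 : 2 / (η * c) * Real.log a ^ l = 2 * Real.log a ^ l / (η * c) := by ring
        rw [h6, div_le_iff₀ (by positivity)] at h3
        linarith
      have h7 : η * c * M' ≤ η * S T * M' :=
        mul_le_mul_of_nonneg_right (mul_le_mul_of_nonneg_left hSc hη0.le) hM'0.le
      linarith
    have g4 : (Nr A x T : ℝ) ≤ Nn A a T := by exact_mod_cast g2
    have g5 : (Nn A a T : ℝ) ≤ Nr A x T + 1 := by exact_mod_cast g3
    obtain ⟨s, hs⟩ : ∃ s : ℝ, s = S T := ⟨_, rfl⟩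
    rw [← hs] at hS0 g1 r3 ⊢
    have q1 : M' * s ≤ (1 + η) * (M * s) := by
      have := mul_le_mul_of_nonneg_right r1 hS0.le
      linarith
    have q2 : (1 - η) * (M * s) ≤ M' * s := by
      have := mul_le_mul_of_nonneg_right r2 hS0.le
      linarith
    have q3 : 0 < M * s := by positivity
    have q4 : η * (M' * s) ≤ η * ((1 + η) * (M * s)) := mul_le_mul_of_nonneg_left q1 hη0.le
    have q5 : η * ((1 + η) * (M * s)) ≤ η * (5 / 4 * (M * s)) := by
      apply mul_le_mul_of_nonneg_left _ hη0.le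
      apply mul_le_mul_of_nonneg_right _ q3.le
      linarith
    have q6 : 4 * η * (M * s) ≤ ε * (M * s) := mul_le_mul_of_nonneg_right hη2 q3.le
    rw [abs_le] at g1 ⊢
    constructor
    · linarith [g1.1]
    · linarith [g1.2]

lemma S_single_pos (r : ℕ) (hr : 1 ≤ r) : 0 < S {r} := by
  obtain ⟨c, hc0, hc⟩ := S_low 1
  rcases hc {r} (by
    intro s hs
    rw [Finset.mem_singleton] at hs
    rw [hs]
    exact hr) (by simp) with ⟨⟨p, hp, _, hw⟩, _⟩ | h
  · have := w_le {r} hp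
    rw [Finset.card_singleton] at this
    have := hp.two_le
    omega
  · exact hc0.trans_le h

end Pool.Agent.D0H24.UT
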