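import Pool.Agent.D0H24.UT.Sing

/-!
# The singular product
-/

set_option autoImplicit false

namespace Pool.Agent.D0H24.UT

open Finset Filter
open Pool.Agent.D0H60.RMG (W W_pos W_ge W_mono)

/-- the singular product of the forms `q r + 1`, `r ∈ T` -/
noncomputable def S (T : Finset ℕ) : ℝ :=
  ∏' p : Nat.Primes, (1 - (w T p : ℝ) / ((p : ℕ) : ℝ)) / (1 - 1 / ((p : ℕ) : ℝ)) ^ T.card

/-- the product of the entries and of their differences -/
def DD (T : Finset ℕ) : ℕ := (∏ r ∈ T, r) * ∏ rs ∈ T.offDiag, (max rs.1 rs.2 - min rs.1 rs.2)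

lemma DD_pos (T : Finset ℕ) (hT : ∀ r ∈ T, 1 ≤ r) : 0 < DD T := by
  unfold DD
  apply Nat.mul_pos
  · exact prod_pos fun r hr => hT r hr
  · apply prod_pos
    intro rs hrs
    rw [mem_offDiag] at hrs
    have := hrs.2.2
    omega

lemma bd_dvd (T : Finset ℕ) (p : ℕ) (h : bd T p) : p ∣ DD T := by
  unfold DD
  rcases h with ⟨r, hr, h1⟩ | ⟨r, hr, s, hs, h1, h2⟩
  · exact (h1.trans (dvd_prod_of_mem _ hr)).mul_right _
  · apply Dvd.dvd.mul_left
    have h3 : p ∣ max r s - min r s := by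
      rcases Nat.lt_or_gt_of_ne h1 with hlt | hlt
      · rw [max_eq_right hlt.le, min_eq_left hlt.le]
        exact (Nat.modEq_iff_dvd' hlt.le).1 h2
      · rw [max_eq_left hlt.le, min_eq_right hlt.le]
        exact (Nat.modEq_iff_dvd' hlt.le).1 h2.symm
    have h4 : (r, s) ∈ T.offDiag := mem_offDiag.2 ⟨hr, hs, h1⟩
    exact h3.trans (dvd_prod_of_mem (fun rs : ℕ × ℕ => max rs.1 rs.2 - min rs.1 rs.2) h4)

lemma DD_le (T : Finset ℕ) (X : ℕ) (hX : 1 ≤ X) (hT : ∀ r ∈ T, r ≤ X) : DD T ≤ X ^ (T.card + T.card ^ 2) := by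
  unfold DD
  rw [pow_add]
  apply Nat.mul_le_mul
  · calc ∏ r ∈ T, r ≤ ∏ r ∈ T, X := prod_le_prod' hT
      _ = _ := prod_const X
  · calc ∏ rs ∈ T.offDiag, (max rs.1 rs.2 - min rs.1 rs.2) ≤ ∏ rs ∈ T.offDiag, X := by
          apply prod_le_prod'
          intro rs hrs
          rw [mem_offDiag] at hrs
          have h1 := hT _ hrs.1
          have h2 := hT _ hrs.2.1
          omega
      _ = X ^ T.offDiag.card := prod_const X
      _ ≤ _ := by
          apply Nat.pow_le_pow_right hX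
          rw [offDiag_card, sq]
          exact Nat.sub_le _ _

lemma bd_count (T : Finset ℕ) (X : ℕ) (hX : 1 ≤ X) (hT : ∀ r ∈ T, 1 ≤ r ∧ r ≤ X) (G : Finset ℕ)
    (hG : ∀ p ∈ G, p.Prime ∧ bd T p) : 2 ^ G.card ≤ X ^ (T.card + T.card ^ 2) := by
  have h1 : ∏ p ∈ G, p ∣ DD T :=
    Finset.prod_primes_dvd _ (fun p hp => (hG p hp).1.prime) (fun p hp => bd_dvd T p (hG p hp).2)
  calc 2 ^ G.card = ∏ p ∈ G, 2 := (prod_const 2).symm
    _ ≤ ∏ p ∈ G, p := prod_le_prod' fun p hp => (hG p hp).1.two_le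
    _ ≤ DD T := Nat.le_of_dvd (DD_pos T fun r hr => (hT r hr).1) h1
    _ ≤ _ := DD_le T X hX fun r hr => (hT r hr).2

lemma summable_phi (T : Finset ℕ) (hT : ∀ r ∈ T, 1 ≤ r) : Summable (fun p : Nat.Primes => phi T p - 1) := by
  have hg : Summable (fun p : Nat.Primes => (T.card : ℝ) ^ 2 * (1 / ((p : ℕ) : ℝ) ^ 2)) := by
    apply Summable.mul_left
    exact (Real.summable_one_div_nat_pow.2 (by norm_num : 1 < 2)).comp_injective Nat.Primes.coe_nat_injective
  apply Summable.of_norm_bounded_eventually hg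
  have hfin : {p : Nat.Primes | (p : ℕ) ≤ T.card + DD T}.Finite := by
    have : (Set.Iic (T.card + DD T)).Finite := Set.finite_Iic _
    exact this.preimage (Nat.Primes.coe_nat_injective.injOn)
  rw [Filter.eventually_cofinite]
  apply hfin.subset
  intro p hp
  by_contra hc
  apply hp
  rw [Set.mem_ofPred_eq, not_le] at hc
  have hpp : (p : ℕ).Prime := p.2
  have hnb : ¬ bd T p := by
    intro hb
    have := Nat.le_of_dvd (DD_pos T hT) (bd_dvd T p hb)
    omega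
  have h1 := phi_up T hpp hnb
  have h2 := phi_low T hpp (by omega)
  rw [Real.norm_eq_abs, abs_le]
  have h3 : (T.card : ℝ) ^ 2 * (1 / ((p : ℕ) : ℝ) ^ 2) = (T.card : ℝ) ^ 2 / ((p : ℕ) : ℝ) ^ 2 := by ring
  rw [h3]
  have h4 : 0 ≤ (T.card : ℝ) ^ 2 / ((p : ℕ) : ℝ) ^ 2 := by positivity
  constructor <;> linarith

lemma S_hasProd (T : Finset ℕ) (hT : ∀ r ∈ T, 1 ≤ r) : HasProd (fun p : Nat.Primes => phi T p) (S T) := by
  have h1 := Real.multipliable_one_add_of_summable (summable_phi T hT)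
  have h2 : Multipliable (fun p : Nat.Primes => phi T p) := by
    apply h1.congr
    intro p
    ring
  exact h2.hasProd

/-- splitting a product over primes -/
lemma prod_split (z : ℕ) (F : Finset ℕ) (hF : ∀ p ∈ F, p.Prime) (hz : pr z ⊆ F) (f : ℕ → ℝ) :
    ∏ p ∈ F, f p = (∏ p ∈ pr z, f p) * ∏ p ∈ F.filter (fun p => z < p), f p := by
  rw [← prod_filter_mul_prod_filter_not F (fun p => z < p), mul_comm]
  congr 1
  apply prod_congr _ fun _ _ => rfl
  ext p
  rw [mem_filter, mem_pr, not_lt]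
  constructor
  · rintro ⟨h1, h2⟩
    exact ⟨hF p h1, h2⟩
  · rintro ⟨h1, h2⟩
    exact ⟨hz (mem_pr.2 ⟨h1, h2⟩), h2⟩

/-- the part of the small primes -/
noncomputable def Az (T : Finset ℕ) (z : ℕ) : ℝ := ∏ p ∈ pr z, phi T p

lemma Az_nonneg (T : Finset ℕ) (z : ℕ) : 0 ≤ Az T z := prod_nonneg fun _ hp => phi_nonneg T (mem_pr.1 hp).1

/-- comparison -/
lemma R_bounds (l z y m : ℕ) (hz : 1 ≤ z) (hlz : l ≤ z) (hzy : z ≤ y) (T : Finset ℕ) (hT : T.card ≤ l)
    (hm : ∀ G' : Finset ℕ, (∀ p ∈ G', p.Prime ∧ bd T p) → G'.card ≤ m)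
    (F : Finset ℕ) (hF : ∀ p ∈ F, p.Prime) (hzF : pr z ⊆ F) (U : ℕ → Finset ℕ) (hU : ∀ p ∈ F, U p ⊆ T)
    (hU2 : ∀ p, p ≤ z → U p = T) :
    Az T z * (1 - (l : ℝ) ^ 2 / z) ≤ ∏ p ∈ F, phi (U p) p ∧ ∏ p ∈ F, phi (U p) p ≤ Az T z * er l m z y := by
  rw [prod_split z F hF hzF]
  have e : ∏ p ∈ pr z, phi (U p) p = Az T z := by
    unfold Az
    apply prod_congr rfl
    intro p hp
    rw [hU2 p (mem_pr.1 hp).2]
  rw [e]
  have hG : ∀ p ∈ F.filter (fun p => z < p), p.Prime ∧ z < p := fun p hp => by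
    rw [mem_filter] at hp
    exact ⟨hF p hp.1, hp.2⟩
  constructor
  · apply mul_le_mul_of_nonneg_left _ (Az_nonneg T z)
    exact prod_low l z hz hlz U _ hG fun p hp => (card_le_card (hU p (mem_filter.1 hp).1)).trans hT
  · apply mul_le_mul_of_nonneg_left _ (Az_nonneg T z)
    exact prod_up l z y m (hz.trans hzy) hzy T hT U _ hG (fun p hp => hU p (mem_filter.1 hp).1) hm

lemma S_bounds (l z y m : ℕ) (hz : 1 ≤ z) (hlz : l ≤ z) (hzy : z ≤ y) (T : Finset ℕ) (hT1 : ∀ r ∈ T, 1 ≤ r)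
    (hT : T.card ≤ l) (hm : ∀ G' : Finset ℕ, (∀ p ∈ G', p.Prime ∧ bd T p) → G'.card ≤ m) :
    Az T z * (1 - (l : ℝ) ^ 2 / z) ≤ S T ∧ S T ≤ Az T z * er l m z y := by
  have hfin : {p : Nat.Primes | (p : ℕ) ≤ z}.Finite :=
    (Set.finite_Iic z).preimage (Nat.Primes.coe_nat_injective.injOn)
  have h1 : ∀ᶠ s : Finset Nat.Primes in atTop,
      Az T z * (1 - (l : ℝ) ^ 2 / z) ≤ ∏ p ∈ s, phi T p ∧ ∏ p ∈ s, phi T p ≤ Az T z * er l m z y := by
    filter_upwards [eventually_ge_atTop hfin.toFinset] with s hs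
    have e : ∏ p ∈ s, phi T p = ∏ p ∈ s.map ⟨fun p : Nat.Primes => (p : ℕ), Nat.Primes.coe_nat_injective⟩, phi T p := by
      rw [prod_map]
      rfl
    rw [e]
    apply R_bounds l z y m hz hlz hzy T hT hm _ _ _ (fun _ => T) (fun _ _ => Subset.rfl) (fun _ _ => rfl)
    · intro p hp
      rw [Finset.mem_map] at hp
      obtain ⟨p', _, rfl⟩ := hp
      exact p'.2
    · intro p hp
      rw [mem_pr] at hp
      rw [Finset.mem_map]
      refine ⟨⟨p, hp.1⟩, hs ?_, rfl⟩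
      exact (Set.Finite.mem_toFinset hfin).2 hp.2
  have h2 : Tendsto (fun s : Finset Nat.Primes => ∏ p ∈ s, phi T p) atTop (nhds (S T)) := S_hasProd T hT1
  exact ⟨ge_of_tendsto h2 (h1.mono fun s hs => hs.1), le_of_tendsto h2 (h1.mono fun s hs => hs.2)⟩

/-- the singular product is zero because of a small prime, or bounded from below -/
lemma S_low (l : ℕ) : ∃ c : ℝ, 0 < c ∧ ∀ T : Finset ℕ, (∀ r ∈ T, 1 ≤ r) → T.card ≤ l →
    ((∃ p, p.Prime ∧ p ≤ 2 * l ^ 2 + 1 ∧ w T p = p) ∧ S T = 0) ∨ c ≤ S T := by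
  set K := 2 * l ^ 2 + 1 with hK
  refine ⟨(∏ p ∈ pr K, (1 : ℝ) / p) * (1 / 2), ?_, ?_⟩
  · apply mul_pos _ (by norm_num)
    apply prod_pos
    intro p hp
    have := (mem_pr.1 hp).1.pos
    positivity
  · intro T hT1 hT
    have hlK : l ≤ K := by
      rw [hK]
      nlinarith
    have hm : ∀ G' : Finset ℕ, (∀ p ∈ G', p.Prime ∧ bd T p) → G'.card ≤ (DD T).primeFactors.card := by
      intro G' hG'
      apply card_le_card
      intro p hp
      rw [Nat.mem_primeFactors]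
      exact ⟨(hG' p hp).1, bd_dvd T p (hG' p hp).2, (DD_pos T hT1).ne'⟩
    obtain ⟨h1, h2⟩ := S_bounds l K K _ (by omega) hlK le_rfl T hT1 hT hm
    have hKr : (l : ℝ) ^ 2 / K ≤ 1 / 2 := by
      have : (K : ℝ) = 2 * (l : ℝ) ^ 2 + 1 := by
        rw [hK]
        push_cast
        ring
      rw [this, div_le_div_iff₀ (by positivity) (by norm_num)]
      linarith
    by_cases hz : ∃ p ∈ pr K, phi T p = 0
    · left
      obtain ⟨p, hp, hp0⟩ := hz
      have hpp := (mem_pr.1 hp).1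
      refine ⟨⟨p, hpp, (mem_pr.1 hp).2, ?_⟩, ?_⟩
      · unfold phi at hp0
        obtain ⟨h0, h1, h2, h3⟩ := t_facts hpp
        rcases div_eq_zero_iff.1 hp0 with h | h
        · have h4 : (w T p : ℝ) / p = 1 := by linarith
          rw [div_eq_one_iff_eq h0.ne'] at h4
          exact_mod_cast h4
        · exact absurd h (pow_pos h3 _).ne'
      · have hA : Az T K = 0 := prod_eq_zero hp hp0
        rw [hA] at h1 h2
        rw [zero_mul] at h1 h2
        exact le_antisymm h2 h1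
    · right
      push Not at hz
      refine le_trans ?_ h1
      apply mul_le_mul
      · apply Finset.prod_le_prod
        · intro p _
          positivity
        · intro p hp
          rcases phi_zero_or T (mem_pr.1 hp).1 with h | h
          · exact absurd h (hz p hp)
          · exact h
      · linarith
      · norm_num
      · exact Az_nonneg T K

/-- the comparison of the finite product with the singular product -/
lemma R_S (l z y m : ℕ) (hz : 1 ≤ z) (hlz : 2 * l ^ 2 + 1 ≤ z) (hzy : z ≤ y) (T : Finset ℕ)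
    (hT1 : ∀ r ∈ T, 1 ≤ r) (hT : T.card ≤ l)
    (hm : ∀ G' : Finset ℕ, (∀ p ∈ G', p.Prime ∧ bd T p) → G'.card ≤ m)
    (F : Finset ℕ) (hF : ∀ p ∈ F, p.Prime) (hzF : pr z ⊆ F) (U : ℕ → Finset ℕ) (hU : ∀ p ∈ F, U p ⊆ T)
    (hU2 : ∀ p, p ≤ z → U p = T) :
    |∏ p ∈ F, phi (U p) p - S T| ≤ 2 * (er l m z y - 1 + (l : ℝ) ^ 2 / z) * S T := by
  have hlz' : l ≤ z := by nlinarith
  obtain ⟨h1, h2⟩ := S_bounds l z y m hz hlz' hzy T hT1 hT hm
  obtain ⟨h3, h4⟩ := R_bounds l z y m hz hlz' hzy T hT hm F hF hzF U hU hU2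
  have hA := Az_nonneg T z
  have hKr : (l : ℝ) ^ 2 / z ≤ 1 / 2 := by
    have hz0 : (0 : ℝ) < z := by exact_mod_cast hz
    rw [div_le_div_iff₀ hz0 (by norm_num)]
    have : 2 * (l : ℝ) ^ 2 + 1 ≤ z := by exact_mod_cast hlz
    linarith
  have h5 : (0 : ℝ) ≤ (l : ℝ) ^ 2 / z := by positivity
  set t := (l : ℝ) ^ 2 / z
  set e := er l m z y
  set A := Az T z
  have h6 : A ≤ 2 * S T := by nlinarith
  have h7 : |∏ p ∈ F, phi (U p) p - S T| ≤ A * (e - 1 + t) := by
    rw [abs_le]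
    constructor <;> linarith
  have h8 : 0 ≤ A * (e - 1 + t) := (abs_nonneg _).trans h7
  rcases hA.eq_or_lt with h | h
  · have hS : S T = 0 := by
      rw [← h, zero_mul] at h1 h2
      exact le_antisymm h2 h1
    rw [hS, mul_zero]
    rw [← h, zero_mul] at h7
    rw [hS] at h7
    exact h7
  · have h9 : 0 ≤ e - 1 + t := by
      by_contra hc
      push Not at hc
      have := mul_neg_of_pos_of_neg h hc
      linarith
    calc _ ≤ A * (e - 1 + t) := h7
      _ ≤ 2 * S T * (e - 1 + t) := mul_le_mul_of_nonneg_right h6 h9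
      _ = _ := by ring

end Pool.Agent.D0H24.UT
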