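import Pool.Agent.D0H24.UT.Crt
import Pool.Agent.D0H60.RMG.Model

/-!
# The local factors
-/

set_option autoImplicit false

namespace Pool.Agent.D0H24.UT

open Finset
open Pool.Agent.D0H60.RMG (W W_pos W_ge W_mono)

/-- the local factor -/
noncomputable def phi (T : Finset ℕ) (p : ℕ) : ℝ := (1 - (w T p : ℝ) / p) / (1 - 1 / (p : ℝ)) ^ T.card

/-- the exceptional primes of `T` -/
def bd (T : Finset ℕ) (p : ℕ) : Prop := (∃ r ∈ T, p ∣ r) ∨ ∃ r ∈ T, ∃ s ∈ T, r ≠ s ∧ r ≡ s [MOD p]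

lemma bd_mono {U T : Finset ℕ} (h : U ⊆ T) {p : ℕ} (hb : bd U p) : bd T p := by
  rcases hb with ⟨r, hr, h1⟩ | ⟨r, hr, s, hs, h1, h2⟩
  · exact Or.inl ⟨r, h hr, h1⟩
  · exact Or.inr ⟨r, h hr, s, h hs, h1, h2⟩

lemma dvd_iff (T : Finset ℕ) {p : ℕ} (hp : p.Prime) (q : ℕ) :
    p ∣ ∏ r ∈ T, (q * r + 1) ↔ ∃ r ∈ T, p ∣ q * r + 1 := (Nat.Prime.prime hp).dvd_finsetProd_iff _

lemma uniq {p : ℕ} (hp : p.Prime) {r q q' : ℕ} (hq : q < p) (hq' : q' < p) (h : p ∣ q * r + 1)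
    (h' : p ∣ q' * r + 1) : q = q' := by
  have a3 : q' * r + 1 ≡ 0 [MOD p] := Nat.modEq_zero_iff_dvd.2 h'
  have a4 : q * r + 1 ≡ 0 [MOD p] := Nat.modEq_zero_iff_dvd.2 h
  have a5 : q * r ≡ q' * r [MOD p] := Nat.ModEq.add_right_cancel' 1 (a4.trans a3.symm)
  have hcop : Nat.gcd p r = 1 := by
    rw [← Nat.Coprime, hp.coprime_iff_not_dvd]
    intro hd
    have : p ∣ 1 := (Nat.dvd_add_right (dvd_mul_of_dvd_right hd q)).1 h
    exact hp.one_lt.ne' (Nat.dvd_one.1 this)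
  have a6 : q ≡ q' [MOD p] := Nat.ModEq.cancel_right_of_coprime hcop a5
  exact Nat.ModEq.eq_of_lt_of_lt a6 hq hq'

lemma w_le (T : Finset ℕ) {p : ℕ} (hp : p.Prime) : w T p ≤ T.card := by
  unfold w
  have h1 : (range p).filter (fun q => p ∣ ∏ r ∈ T, (q * r + 1)) ⊆
      T.biUnion (fun r => (range p).filter (fun q => p ∣ q * r + 1)) := by
    intro q hq
    rw [mem_filter, dvd_iff T hp] at hq
    obtain ⟨h1, r, hr, h2⟩ := hq
    rw [mem_biUnion]
    exact ⟨r, hr, mem_filter.2 ⟨h1, h2⟩⟩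
  refine (card_le_card h1).trans (card_biUnion_le.trans ?_)
  calc ∑ r ∈ T, ((range p).filter (fun q => p ∣ q * r + 1)).card ≤ ∑ r ∈ T, 1 := by
        apply sum_le_sum
        intro r _
        rw [card_le_one]
        intro q hq q' hq'
        rw [mem_filter, mem_range] at hq hq'
        exact uniq hp hq.1 hq'.1 hq.2 hq'.2
    _ = T.card := by simp

lemma w_le_p (T : Finset ℕ) (p : ℕ) : w T p ≤ p := by
  unfold w
  calc _ ≤ (range p).card := card_filter_le _ _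
    _ = p := card_range p

lemma w_ge (T : Finset ℕ) {p : ℕ} (hp : p.Prime) (h : ¬ bd T p) : T.card ≤ w T p := by
  unfold bd at h
  push Not at h
  obtain ⟨h1, h2⟩ := h
  have hex : ∀ r, ∃ q, r ∈ T → q < p ∧ p ∣ q * r + 1 := by
    intro r
    by_cases hr : r ∈ T
    · have hc : Nat.Coprime r p := ((Nat.Prime.coprime_iff_not_dvd hp).2 (h1 r hr)).symm
      obtain ⟨u, -, hu⟩ := Nat.exists_mul_mod_eq_one_of_coprime hc hp.one_lt
      refine ⟨((p - 1) * u) % p, fun _ => ⟨Nat.mod_lt _ hp.pos, ?_⟩⟩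
      rw [← Nat.modEq_zero_iff_dvd]
      have e1 : ((p - 1) * u) % p * r + 1 ≡ (p - 1) * u * r + 1 [MOD p] :=
        ((Nat.mod_modEq _ p).mul_right r).add_right 1
      have e2 : (p - 1) * u * r + 1 ≡ (p - 1) * 1 + 1 [MOD p] := by
        have e3 : r * u ≡ 1 [MOD p] := by
          unfold Nat.ModEq
          rw [hu, Nat.mod_eq_of_lt hp.one_lt]
        have e4 : (p - 1) * u * r = (p - 1) * (r * u) := by ring
        rw [e4]
        exact (e3.mul_left (p - 1)).add_right 1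
      have e5 : (p - 1) * 1 + 1 = p := by
        have := hp.one_lt
        omega
      rw [e5] at e2
      exact e1.trans (e2.trans (Nat.modEq_zero_iff_dvd.2 dvd_rfl))
    · exact ⟨0, fun hc => absurd hc hr⟩
  choose f hf using hex
  unfold w
  apply card_le_card_of_injOn f
  · intro r hr
    rw [mem_coe] at hr
    rw [mem_coe, mem_filter, mem_range, dvd_iff T hp]
    exact ⟨(hf r hr).1, r, hr, (hf r hr).2⟩
  · intro r hr s hs hrs
    rw [mem_coe] at hr hs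
    by_contra hne
    apply h2 r hr s hs hne
    have b1 := (hf r hr).2
    have b2 := (hf s hs).2
    rw [hrs] at b1
    have a3 : f s * r + 1 ≡ 0 [MOD p] := Nat.modEq_zero_iff_dvd.2 b1
    have a4 : f s * s + 1 ≡ 0 [MOD p] := Nat.modEq_zero_iff_dvd.2 b2
    have a5 : f s * r ≡ f s * s [MOD p] := Nat.ModEq.add_right_cancel' 1 (a3.trans a4.symm)
    have hcop : Nat.gcd p (f s) = 1 := by
      rw [← Nat.Coprime, hp.coprime_iff_not_dvd]
      intro hd
      have : p ∣ 1 := (Nat.dvd_add_right (dvd_mul_of_dvd_left hd s)).1 b2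
      exact hp.one_lt.ne' (Nat.dvd_one.1 this)
    exact Nat.ModEq.cancel_left_of_coprime hcop a5

section real

variable {p : ℕ}

lemma t_facts (hp : p.Prime) : 0 < (p : ℝ) ∧ 0 < 1 / (p : ℝ) ∧ 1 / (p : ℝ) ≤ 1 / 2 ∧ 0 < 1 - 1 / (p : ℝ) := by
  have h2 : (2 : ℝ) ≤ p := by exact_mod_cast hp.two_le
  have h0 : (0 : ℝ) < p := by linarith
  have h1 : 1 / (p : ℝ) ≤ 1 / 2 := one_div_le_one_div_of_le (by norm_num) h2
  exact ⟨h0, by positivity, h1, by linarith⟩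

lemma phi_nonneg (T : Finset ℕ) (hp : p.Prime) : 0 ≤ phi T p := by
  obtain ⟨h0, h1, h2, h3⟩ := t_facts hp
  unfold phi
  have : (w T p : ℝ) / p ≤ 1 := by
    rw [div_le_one h0]
    exact_mod_cast w_le_p T p
  have h4 : 0 ≤ 1 - (w T p : ℝ) / p := by linarith
  positivity

lemma phi_low (T : Finset ℕ) (hp : p.Prime) (hT : T.card ≤ p) :
    1 - (T.card : ℝ) ^ 2 / (p : ℝ) ^ 2 ≤ phi T p := by
  obtain ⟨h0, h1, h2, h3⟩ := t_facts hp
  set k := T.card with hk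
  have hk0 : (0 : ℝ) ≤ k := Nat.cast_nonneg _
  have h4 : (w T p : ℝ) / p ≤ k / p := by
    apply div_le_div_of_nonneg_right _ h0.le
    exact_mod_cast w_le T hp
  have h5 : (k : ℝ) / p ≤ 1 := by
    rw [div_le_one h0]
    exact_mod_cast hT
  have h6 : (1 - 1 / (p : ℝ)) ^ k * (1 + k / p) ≤ 1 := by
    have e1 : (1 - 1 / (p : ℝ)) ^ k ≤ Real.exp (-(k / p)) := by
      have g1 : 1 - 1 / (p : ℝ) ≤ Real.exp (-(1 / p)) := by
        have := Real.add_one_le_exp (-(1 / (p : ℝ)))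
        linarith
      calc (1 - 1 / (p : ℝ)) ^ k ≤ Real.exp (-(1 / p)) ^ k := pow_le_pow_left₀ h3.le g1 _
        _ = _ := by
          rw [← Real.exp_nat_mul]
          congr 1
          ring
    have e2 : 1 + (k : ℝ) / p ≤ Real.exp (k / p) := by
      have := Real.add_one_le_exp ((k : ℝ) / p)
      linarith
    calc _ ≤ Real.exp (-(k / p)) * Real.exp (k / p) := mul_le_mul e1 e2 (by positivity) (Real.exp_pos _).le
      _ = 1 := by rw [← Real.exp_add, neg_add_cancel, Real.exp_zero]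
  unfold phi
  rw [le_div_iff₀ (by positivity)]
  have e3 : 1 - (k : ℝ) ^ 2 / (p : ℝ) ^ 2 = (1 - k / p) * (1 + k / p) := by
    field_simp
    ring
  rw [e3]
  calc (1 - (k : ℝ) / p) * (1 + k / p) * (1 - 1 / (p : ℝ)) ^ k =
      (1 - (k : ℝ) / p) * ((1 - 1 / (p : ℝ)) ^ k * (1 + k / p)) := by ring
    _ ≤ (1 - (k : ℝ) / p) * 1 := mul_le_mul_of_nonneg_left h6 (by linarith)
    _ ≤ _ := by linarith

lemma phi_up (T : Finset ℕ) (hp : p.Prime) (h : ¬ bd T p) : phi T p ≤ 1 := by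
  obtain ⟨h0, h1, h2, h3⟩ := t_facts hp
  unfold phi
  rw [div_le_one (by positivity)]
  have h4 : (T.card : ℝ) / p ≤ (w T p : ℝ) / p := by
    apply div_le_div_of_nonneg_right _ h0.le
    exact_mod_cast w_ge T hp h
  have h5 := one_add_mul_le_pow (show (-2 : ℝ) ≤ -(1 / (p : ℝ)) by linarith) T.card
  have e1 : 1 + (T.card : ℝ) * -(1 / (p : ℝ)) = 1 - T.card / p := by ring
  have e2 : (1 + -(1 / (p : ℝ))) = 1 - 1 / (p : ℝ) := by ring
  rw [e1, e2] at h5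
  linarith

lemma phi_up' (T : Finset ℕ) (hp : p.Prime) (l : ℕ) (hl : T.card ≤ l) : phi T p ≤ ((1 - (p : ℝ)⁻¹)⁻¹) ^ l := by
  obtain ⟨h0, h1, h2, h3⟩ := t_facts hp
  unfold phi
  rw [show (p : ℝ)⁻¹ = 1 / p from inv_eq_one_div _]
  have h4 : 0 ≤ (w T p : ℝ) / p := by positivity
  have h5 : 1 ≤ (1 - 1 / (p : ℝ))⁻¹ := by
    rw [one_le_inv₀ h3]
    linarith
  calc (1 - (w T p : ℝ) / p) / (1 - 1 / (p : ℝ)) ^ T.card ≤ 1 / (1 - 1 / (p : ℝ)) ^ T.card :=
        div_le_div_of_nonneg_right (by linarith) (by positivity)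
    _ = ((1 - 1 / (p : ℝ))⁻¹) ^ T.card := by rw [inv_pow, one_div]
    _ ≤ _ := pow_le_pow_right₀ h5 hl

/-- the factor is zero or at least `1 / p` -/
lemma phi_zero_or (T : Finset ℕ) (hp : p.Prime) : phi T p = 0 ∨ 1 / (p : ℝ) ≤ phi T p := by
  obtain ⟨h0, h1, h2, h3⟩ := t_facts hp
  rcases Nat.eq_or_lt_of_le (w_le_p T p) with h | h
  · left
    unfold phi
    rw [h, div_self h0.ne', sub_self, zero_div]
  · right
    unfold phi
    have h4 : (w T p : ℝ) + 1 ≤ p := by exact_mod_cast h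
    have h5 : 1 / (p : ℝ) ≤ 1 - (w T p : ℝ) / p := by
      rw [one_sub_div h0.ne']
      exact div_le_div_of_nonneg_right (by linarith) h0.le
    have h6 : (1 - 1 / (p : ℝ)) ^ T.card ≤ 1 := pow_le_one₀ h3.le (by linarith)
    rw [le_div_iff₀ (by positivity)]
    calc 1 / (p : ℝ) * (1 - 1 / (p : ℝ)) ^ T.card ≤ 1 / (p : ℝ) * 1 := mul_le_mul_of_nonneg_left h6 h1.le
      _ ≤ _ := by linarith

end real

/-- products of numbers close to one -/
lemma prod_one_sub {ι : Type*} (s : Finset ι) (a : ι → ℝ) (h0 : ∀ i ∈ s, 0 ≤ a i) (h1 : ∀ i ∈ s, a i ≤ 1) :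
    1 - ∑ i ∈ s, a i ≤ ∏ i ∈ s, (1 - a i) := by
  classical
  induction s using Finset.induction_on with
  | empty => simp
  | insert i s hi ih =>
    rw [sum_insert hi, prod_insert hi]
    have ih' := ih (fun j hj => h0 j (mem_insert_of_mem hj)) (fun j hj => h1 j (mem_insert_of_mem hj))
    have a0 := h0 i (mem_insert_self _ _)
    have a1 := h1 i (mem_insert_self _ _)
    have a2 : 0 ≤ ∑ j ∈ s, a j := sum_nonneg fun j hj => h0 j (mem_insert_of_mem hj)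
    calc 1 - (a i + ∑ j ∈ s, a j) ≤ (1 - a i) * (1 - ∑ j ∈ s, a j) := by nlinarith
      _ ≤ _ := mul_le_mul_of_nonneg_left ih' (by linarith)

lemma sum_sq (z : ℕ) (hz : 1 ≤ z) (G : Finset ℕ) (hG : ∀ p ∈ G, z < p) :
    ∑ p ∈ G, 1 / (p : ℝ) ^ 2 ≤ 1 / (z : ℝ) := by
  have h1 : G ⊆ Ioc z (max z (G.sup id)) := by
    intro p hp
    rw [mem_Ioc]
    exact ⟨hG p hp, (le_sup (f := id) hp).trans (le_max_right _ _)⟩
  calc ∑ p ∈ G, 1 / (p : ℝ) ^ 2 ≤ ∑ p ∈ Ioc z (max z (G.sup id)), 1 / (p : ℝ) ^ 2 :=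
        sum_le_sum_of_subset_of_nonneg h1 fun i _ _ => by positivity
    _ = ∑ p ∈ Ioc z (max z (G.sup id)), ((p : ℝ) ^ 2)⁻¹ := by simp only [one_div]
    _ ≤ (z : ℝ)⁻¹ - ((max z (G.sup id) : ℕ) : ℝ)⁻¹ := sum_Ioc_inv_sq_le_sub (by omega) (le_max_left _ _)
    _ ≤ 1 / z := by
        rw [one_div]
        have : (0 : ℝ) ≤ ((max z (G.sup id) : ℕ) : ℝ)⁻¹ := by positivity
        linarith

/-- lower bound for products of local factors -/
lemma prod_low (l z : ℕ) (hz : 1 ≤ z) (hlz : l ≤ z) (U : ℕ → Finset ℕ) (G : Finset ℕ)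
    (hG : ∀ p ∈ G, p.Prime ∧ z < p) (hU : ∀ p ∈ G, (U p).card ≤ l) :
    1 - (l : ℝ) ^ 2 / z ≤ ∏ p ∈ G, phi (U p) p := by
  have hl0 : (0 : ℝ) ≤ l := Nat.cast_nonneg _
  have h1 : ∀ p ∈ G, 1 - (l : ℝ) ^ 2 / (p : ℝ) ^ 2 ≤ phi (U p) p := by
    intro p hp
    have h2 := hU p hp
    have h3 := (hG p hp).2
    have h4 := phi_low (U p) (hG p hp).1 (by omega)
    have h5 : ((U p).card : ℝ) ^ 2 ≤ (l : ℝ) ^ 2 := by
      have : ((U p).card : ℝ) ≤ l := by exact_mod_cast h2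
      exact pow_le_pow_left₀ (Nat.cast_nonneg _) this 2
    have h6 : ((U p).card : ℝ) ^ 2 / (p : ℝ) ^ 2 ≤ (l : ℝ) ^ 2 / (p : ℝ) ^ 2 :=
      div_le_div_of_nonneg_right h5 (by positivity)
    linarith
  have h01 : ∀ p ∈ G, (l : ℝ) ^ 2 / (p : ℝ) ^ 2 ≤ 1 := by
    intro p hp
    have h3 := (hG p hp).2
    have h0 : (0 : ℝ) < p := by
      have : 0 < p := by omega
      exact_mod_cast this
    rw [div_le_one (by positivity)]
    have : (l : ℝ) ≤ p := by
      have : l ≤ p := by omega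
      exact_mod_cast this
    exact pow_le_pow_left₀ hl0 this 2
  calc 1 - (l : ℝ) ^ 2 / z ≤ 1 - ∑ p ∈ G, (l : ℝ) ^ 2 / (p : ℝ) ^ 2 := by
        have h2 := sum_sq z hz G fun p hp => (hG p hp).2
        have e : ∑ p ∈ G, (l : ℝ) ^ 2 / (p : ℝ) ^ 2 = (l : ℝ) ^ 2 * ∑ p ∈ G, 1 / (p : ℝ) ^ 2 := by
          rw [mul_sum]
          apply sum_congr rfl
          intro p _
          ring
        rw [e]
        have h3 := mul_le_mul_of_nonneg_left h2 (by positivity : (0 : ℝ) ≤ (l : ℝ) ^ 2)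
        rw [mul_one_div] at h3
        linarith
    _ ≤ ∏ p ∈ G, (1 - (l : ℝ) ^ 2 / (p : ℝ) ^ 2) := prod_one_sub _ _ (fun p _ => by positivity) h01
    _ ≤ _ := prod_le_prod (fun p hp => by linarith [h01 p hp]) h1

lemma prod_subset_le {ι : Type*} [DecidableEq ι] {s t : Finset ι} (h : s ⊆ t) (f : ι → ℝ) (hf : ∀ i ∈ t, 1 ≤ f i) :
    ∏ i ∈ s, f i ≤ ∏ i ∈ t, f i := by
  rw [← prod_sdiff h]
  have h1 : (1 : ℝ) ≤ ∏ i ∈ t \ s, f i := by
    calc (1 : ℝ) = ∏ i ∈ t \ s, (1 : ℝ) := by simp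
      _ ≤ _ := prod_le_prod (fun _ _ => zero_le_one) fun i hi => hf i (mem_sdiff.1 hi).1
  have h2 : (0 : ℝ) ≤ ∏ i ∈ s, f i := prod_nonneg fun i hi => zero_le_one.trans (hf i (h hi))
  nlinarith

/-- primes up to `y` -/
def pr (y : ℕ) : Finset ℕ := (Icc 1 y).filter Nat.Prime

lemma mem_pr {y p : ℕ} : p ∈ pr y ↔ p.Prime ∧ p ≤ y := by
  unfold pr
  rw [mem_filter, mem_Icc]
  constructor
  · rintro ⟨⟨_, h⟩, h2⟩
    exact ⟨h2, h⟩
  · rintro ⟨h1, h2⟩
    exact ⟨⟨h1.pos, h2⟩, h1⟩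

lemma W_split (z y : ℕ) (h : z ≤ y) :
    ∏ p ∈ (pr y).filter (fun p => z < p), (1 - (p : ℝ)⁻¹)⁻¹ = W y / W z := by
  rw [eq_div_iff (W_pos z).ne']
  unfold W
  change (∏ p ∈ (pr y).filter (fun p => z < p), (1 - (p : ℝ)⁻¹)⁻¹) * ∏ p ∈ pr z, (1 - (p : ℝ)⁻¹)⁻¹ =
    ∏ p ∈ pr y, (1 - (p : ℝ)⁻¹)⁻¹
  rw [← prod_filter_mul_prod_filter_not (pr y) (fun p => z < p)]
  congr 1
  apply prod_congr _ fun _ _ => rfl
  ext p
  simp only [mem_filter, mem_pr, not_lt]
  constructor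
  · rintro ⟨h1, h2⟩
    exact ⟨⟨h1, h2.trans h⟩, h2⟩
  · rintro ⟨⟨h1, _⟩, h2⟩
    exact ⟨h1, h2⟩

/-- the upper error factor -/
noncomputable def er (l m z y : ℕ) : ℝ := (W y / W z * Real.exp (2 * m / y)) ^ l

/-- upper bound for products of local factors -/
lemma prod_up (l z y m : ℕ) (hy : 1 ≤ y) (hzy : z ≤ y) (T : Finset ℕ) (hT : T.card ≤ l)
    (U : ℕ → Finset ℕ) (G : Finset ℕ)
    (hG : ∀ p ∈ G, p.Prime ∧ z < p) (hU : ∀ p ∈ G, U p ⊆ T)
    (hm : ∀ G' : Finset ℕ, (∀ p ∈ G', p.Prime ∧ bd T p) → G'.card ≤ m) :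
    ∏ p ∈ G, phi (U p) p ≤ er l m z y := by
  classical
  have hUl : ∀ p ∈ G, (U p).card ≤ l := fun p hp => (card_le_card (hU p hp)).trans hT
  have hf1 : ∀ p ∈ G, 1 ≤ (1 - (p : ℝ)⁻¹)⁻¹ := fun p hp => Pool.Agent.D0H60.RMG.fac_ge p (hG p hp).1
  have h1 : ∏ p ∈ G, phi (U p) p ≤ ∏ p ∈ G, (if bd T p then ((1 - (p : ℝ)⁻¹)⁻¹) ^ l else 1) := by
    apply prod_le_prod (fun p hp => phi_nonneg _ (hG p hp).1)
    intro p hp
    split_ifs with hb
    · exact phi_up' _ (hG p hp).1 l (hUl p hp)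
    · exact phi_up _ (hG p hp).1 fun hc => hb (bd_mono (hU p hp) hc)
  refine h1.trans ?_
  rw [← prod_filter, prod_pow]
  unfold er
  apply pow_le_pow_left₀
  · apply prod_nonneg
    intro p hp
    exact zero_le_one.trans (hf1 p (mem_filter.1 hp).1)
  rw [← prod_filter_mul_prod_filter_not (G.filter (fun p => bd T p)) (fun p => p ≤ y)]
  apply mul_le_mul
  · rw [← W_split z y hzy]
    apply prod_subset_le
    · intro p hp
      simp only [mem_filter] at hp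
      rw [mem_filter, mem_pr]
      exact ⟨⟨(hG p hp.1.1).1, hp.2⟩, (hG p hp.1.1).2⟩
    · intro p hp
      exact Pool.Agent.D0H60.RMG.fac_ge p (mem_pr.1 (mem_filter.1 hp).1).1
  · set G' := (G.filter (fun p => bd T p)).filter (fun p => ¬ p ≤ y) with hG'
    have hcard : G'.card ≤ m := hm G' fun p hp => by
      rw [hG', mem_filter, mem_filter] at hp
      exact ⟨(hG p hp.1.1).1, hp.1.2⟩
    have hy0 : (0 : ℝ) < y := by exact_mod_cast hy
    calc ∏ p ∈ G', (1 - (p : ℝ)⁻¹)⁻¹ ≤ ∏ p ∈ G', Real.exp (2 / y) := by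
          apply prod_le_prod
          · intro p hp
            rw [hG', mem_filter, mem_filter] at hp
            exact zero_le_one.trans (hf1 p hp.1.1)
          · intro p hp
            rw [hG', mem_filter, mem_filter] at hp
            obtain ⟨h0, h1, h2, h3⟩ := t_facts (hG p hp.1.1).1
            have h4 : (y : ℝ) < p := by
              have := hp.2
              push Not at this
              exact_mod_cast this
            have h5 : (1 - (p : ℝ)⁻¹)⁻¹ ≤ 1 + 2 * (1 / p) := by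
              rw [inv_eq_one_div (p : ℝ), inv_le_iff_one_le_mul₀ h3]
              nlinarith
            have h6 : 1 / (p : ℝ) ≤ 1 / y := one_div_le_one_div_of_le hy0 h4.le
            have h7 := Real.add_one_le_exp (2 / (y : ℝ))
            have h8 : 2 / (y : ℝ) = 2 * (1 / y) := by ring
            linarith
      _ = Real.exp (G'.card * (2 / y)) := by rw [prod_const, ← Real.exp_nat_mul]
      _ ≤ Real.exp (2 * m / y) := by
          apply Real.exp_le_exp.2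
          have : (G'.card : ℝ) ≤ m := by exact_mod_cast hcard
          rw [mul_div_assoc', div_le_div_iff_of_pos_right hy0]
          linarith
  · apply prod_nonneg
    intro p hp
    exact zero_le_one.trans (hf1 p (mem_filter.1 (mem_filter.1 hp).1).1)
  · exact div_nonneg (W_pos _).le (W_pos _).le

end Pool.Agent.D0H24.UT
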