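import Pool.Agent.D0H24.UT.Asy

/-!
# The local factors of the primes beyond the sieve are negligible
-/

set_option autoImplicit false

namespace Pool.Agent.D0H24.UT

open Finset Filter
open Pool.Agent.D0H60.RMG (W W_pos W_ge W_mono)

lemma ceil_log {t : ℝ} (ht : 0 < t) :
    Tendsto (fun u : ℝ => Real.log (⌈u ^ t⌉₊ : ℝ) / Real.log u) atTop (nhds t) := by
  have h1 : Tendsto (fun u : ℝ => t + Real.log 2 / Real.log u) atTop (nhds (t + 0)) :=
    tendsto_const_nhds.add (tendsto_const_nhds.div_atTop Real.tendsto_log_atTop)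
  rw [add_zero] at h1
  refine tendsto_of_tendsto_of_tendsto_of_le_of_le' (tendsto_const_nhds (x := t)) h1 ?_ ?_
  · filter_upwards [eventually_gt_atTop 1] with u hu
    have hu0 : 0 < u := by linarith
    have hl : 0 < Real.log u := Real.log_pos hu
    rw [le_div_iff₀ hl, ← Real.log_rpow hu0]
    exact Real.log_le_log (by positivity) (Nat.le_ceil _)
  · filter_upwards [eventually_gt_atTop 1] with u hu
    have hu0 : 0 < u := by linarith
    have hl : 0 < Real.log u := Real.log_pos hu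
    have h1u : 1 ≤ u ^ t := Real.one_le_rpow hu.le ht.le
    have h2 : (⌈u ^ t⌉₊ : ℝ) ≤ 2 * u ^ t := by
      have := Nat.ceil_lt_add_one (show 0 ≤ u ^ t by positivity)
      linarith
    have h3 : (0 : ℝ) < (⌈u ^ t⌉₊ : ℝ) := lt_of_lt_of_le (by positivity) (Nat.le_ceil (u ^ t))
    rw [div_le_iff₀ hl, add_mul, div_mul_cancel₀ _ hl.ne']
    have h4 := Real.log_le_log h3 h2
    rw [Real.log_mul (by norm_num) (by positivity), Real.log_rpow hu0] at h4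
    linarith

lemma ceil_tendsto {t : ℝ} (ht : 0 < t) : Tendsto (fun u : ℝ => ⌈u ^ t⌉₊) atTop atTop :=
  tendsto_nat_ceil_atTop.comp (tendsto_rpow_atTop ht)

/-- the ratio of the products of Mertens -/
lemma W_ratio {s t : ℝ} (hs : 0 < s) (ht : 0 < t) :
    Tendsto (fun u : ℝ => W ⌈u ^ t⌉₊ / W ⌈u ^ s⌉₊) atTop (nhds (t / s)) := by
  set G := Real.exp Real.eulerMascheroniConstant with hG
  have hG0 : G ≠ 0 := (Real.exp_pos _).ne'
  have hm : Tendsto (fun N : ℕ => W N / Real.log N) atTop (nhds G) := Pool.Agent.H305R2.mertens_three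
  have h1 := hm.comp (ceil_tendsto ht)
  have h2 := hm.comp (ceil_tendsto hs)
  have h3 := (h1.mul (ceil_log ht)).div (h2.mul (ceil_log hs)) (mul_ne_zero hG0 hs.ne')
  have e : G * t / (G * s) = t / s := by
    field_simp
  rw [e] at h3
  refine h3.congr' ?_
  have hcl : ∀ v : ℝ, 0 < v → ∀ᶠ u : ℝ in atTop, Real.log (⌈u ^ v⌉₊ : ℝ) ≠ 0 := by
    intro v hv
    have := (Real.tendsto_log_atTop.comp (tendsto_natCast_atTop_atTop (R := ℝ))).comp (ceil_tendsto hv)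
    filter_upwards [this.eventually_gt_atTop 0] with u hu
    exact (show 0 < Real.log (⌈u ^ v⌉₊ : ℝ) from hu).ne'
  filter_upwards [hcl t ht, hcl s hs, Real.tendsto_log_atTop.eventually_gt_atTop 0] with u g1 g2 g3
  have g4 := (W_pos ⌈u ^ t⌉₊).ne'
  have g5 := (W_pos ⌈u ^ s⌉₊).ne'
  simp only [Function.comp, Pi.div_apply, Pi.mul_apply]
  field_simp

/-- the sieve reaches `(log log n) ^ (1 - o(1))` -/
def Deep (z : ℕ → ℕ) : Prop :=
  ∀ δ : ℝ, 0 < δ → ∀ᶠ n : ℕ in atTop, Real.log (Real.log n) ^ (1 - δ) ≤ z n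

/-- the error factor is close to one -/
lemma eta_small (z : ℕ → ℕ) (hdeep : Deep z) (C l : ℕ) (η : ℝ) (hη : 0 < η) :
    ∀ᶠ x : ℕ in atTop, ∃ y, z x ≤ y ∧ 2 * l ^ 2 + 1 ≤ z x ∧
      2 * (er l ⌊2 * ((l : ℝ) + l ^ 2) * C * Real.log (Real.log x)⌋₊ (z x) y - 1 + (l : ℝ) ^ 2 / z x) ≤ η := by
  -- the exponent
  obtain ⟨δ, hδ0, hδ1, hδ2⟩ : ∃ δ : ℝ, 0 < δ ∧ δ < 1 ∧ ((1 + δ) / (1 - δ)) ^ l < 1 + η / 4 := by
    have t1 : Tendsto (fun δ : ℝ => ((1 + δ) / (1 - δ)) ^ l) (nhds 0) (nhds (((1 + 0) / (1 - 0)) ^ l)) := by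
      have : ContinuousAt (fun δ : ℝ => ((1 + δ) / (1 - δ)) ^ l) 0 :=
        ContinuousAt.pow (ContinuousAt.div (by fun_prop) (by fun_prop) (by norm_num)) l
      exact this.tendsto
    have e : (((1 : ℝ) + 0) / (1 - 0)) ^ l = 1 := by simp
    rw [e] at t1
    have t2 : ∀ᶠ δ in nhdsWithin (0 : ℝ) (Set.Ioi 0), ((1 + δ) / (1 - δ)) ^ l < 1 + η / 4 :=
      (t1.mono_left nhdsWithin_le_nhds).eventually (gt_mem_nhds (by linarith))
    have t3 : ∀ᶠ δ in nhdsWithin (0 : ℝ) (Set.Ioi 0), δ < 1 :=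
      nhdsWithin_le_nhds (gt_mem_nhds (by norm_num))
    obtain ⟨δ, ⟨h1, h2⟩, h3⟩ := ((t2.and t3).and self_mem_nhdsWithin).exists
    exact ⟨δ, h3, h2, h1⟩
  have hs : 0 < 1 - δ := by linarith
  have ht : 0 < 1 + δ := by linarith
  set K : ℝ := 2 * ((l : ℝ) + l ^ 2) * C with hK
  have hK0 : 0 ≤ K := by positivity
  -- the limits in terms of `u = log log x`
  have g1 : Tendsto (fun u : ℝ => (W ⌈u ^ (1 + δ)⌉₊ / W ⌈u ^ (1 - δ)⌉₊ * Real.exp (2 * K * u ^ (-δ))) ^ l) atTop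
      (nhds (((1 + δ) / (1 - δ) * Real.exp (2 * K * 0)) ^ l)) := by
    apply Tendsto.pow
    apply (W_ratio hs ht).mul
    apply (Real.continuous_exp.tendsto _).comp
    exact (tendsto_rpow_neg_atTop hδ0).const_mul _
  rw [mul_zero, Real.exp_zero, mul_one] at g1
  have g2 : Tendsto (fun u : ℝ => (l : ℝ) ^ 2 / u ^ (1 - δ)) atTop (nhds 0) :=
    tendsto_const_nhds.div_atTop (tendsto_rpow_atTop hs)
  have g3 : ∀ᶠ u : ℝ in atTop, (W ⌈u ^ (1 + δ)⌉₊ / W ⌈u ^ (1 - δ)⌉₊ * Real.exp (2 * K * u ^ (-δ))) ^ l < 1 + η / 4 :=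
    g1.eventually (gt_mem_nhds hδ2)
  have g4 : ∀ᶠ u : ℝ in atTop, (l : ℝ) ^ 2 / u ^ (1 - δ) < η / 4 := g2.eventually (gt_mem_nhds (by positivity))
  have g5 : ∀ᶠ u : ℝ in atTop, (2 : ℝ) * l ^ 2 + 1 ≤ u ^ (1 - δ) := (tendsto_rpow_atTop hs).eventually_ge_atTop _
  filter_upwards [tloglog.eventually g3, tloglog.eventually g4, tloglog.eventually g5, hdeep δ hδ0,
    tloglog.eventually_ge_atTop 1] with x e3 e4 e5 e6 e7
  set u := Real.log (Real.log (x : ℝ)) with hu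
  have hu0 : 0 < u := by linarith
  have hzr : (2 : ℝ) * l ^ 2 + 1 ≤ z x := e5.trans e6
  have hz0 : (0 : ℝ) < z x := lt_of_lt_of_le (by positivity) hzr
  refine ⟨max (z x) ⌈u ^ (1 + δ)⌉₊, le_max_left _ _, by exact_mod_cast hzr, ?_⟩
  set y := max (z x) ⌈u ^ (1 + δ)⌉₊ with hy
  have hyu : u ^ (1 + δ) ≤ y := (Nat.le_ceil _).trans (by exact_mod_cast le_max_right _ _)
  have hy0 : (0 : ℝ) < y := lt_of_lt_of_le (by positivity) hyu
  have hrat : W y / W (z x) ≤ W ⌈u ^ (1 + δ)⌉₊ / W ⌈u ^ (1 - δ)⌉₊ := by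
    have hzc : ⌈u ^ (1 - δ)⌉₊ ≤ z x := Nat.ceil_le.2 e6
    rcases le_total ⌈u ^ (1 + δ)⌉₊ (z x) with h | h
    · have : y = z x := max_eq_left h
      rw [this, div_self (W_pos _).ne', one_le_div (W_pos _)]
      apply W_mono
      apply Nat.ceil_mono
      exact Real.rpow_le_rpow_of_exponent_le e7 (by linarith)
    · have : y = ⌈u ^ (1 + δ)⌉₊ := max_eq_right h
      rw [this]
      exact div_le_div_of_nonneg_left (W_pos _).le (W_pos _) (W_mono hzc)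
  have hexp : Real.exp (2 * (⌊K * u⌋₊ : ℝ) / y) ≤ Real.exp (2 * K * u ^ (-δ)) := by
    apply Real.exp_le_exp.2
    have h1 : (⌊K * u⌋₊ : ℝ) ≤ K * u := Nat.floor_le (by positivity)
    rw [div_le_iff₀ hy0]
    have h2 : 2 * K * u ^ (-δ) * u ^ (1 + δ) ≤ 2 * K * u ^ (-δ) * y := mul_le_mul_of_nonneg_left hyu (by positivity)
    have h3 : 2 * K * u ^ (-δ) * u ^ (1 + δ) = 2 * K * u := by
      rw [mul_assoc, ← Real.rpow_add hu0]
      have : -δ + (1 + δ) = 1 := by ring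
      rw [this, Real.rpow_one]
    linarith
  have her : er l ⌊K * u⌋₊ (z x) y < 1 + η / 4 := by
    refine lt_of_le_of_lt ?_ e3
    unfold er
    apply pow_le_pow_left₀
    · exact mul_nonneg (div_nonneg (W_pos _).le (W_pos _).le) (Real.exp_pos _).le
    · exact mul_le_mul hrat hexp (Real.exp_pos _).le (div_nonneg (W_pos _).le (W_pos _).le)
  have hlz : (l : ℝ) ^ 2 / z x ≤ (l : ℝ) ^ 2 / u ^ (1 - δ) :=
    div_le_div_of_nonneg_left (by positivity) (by positivity) e6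
  linarith

/-- the number of exceptional primes -/
lemma bd_few (T : Finset ℕ) (l C x : ℕ) (hl : T.card = l) (hx : 1 ≤ Real.log (Real.log x)) (hT : ∀ r ∈ T, 1 ≤ r ∧ (r : ℝ) ≤ Real.log x ^ C)
    (G : Finset ℕ) (hG : ∀ p ∈ G, p.Prime ∧ bd T p) :
    G.card ≤ ⌊2 * ((l : ℝ) + l ^ 2) * C * Real.log (Real.log x)⌋₊ := by
  set u := Real.log (Real.log (x : ℝ)) with hu
  have hΛ : 1 < Real.log (x : ℝ) := by
    by_contra hc
    push Not at hc
    have h0 : 0 ≤ Real.log (x : ℝ) := Real.log_natCast_nonneg x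
    have := Real.log_nonpos h0 hc
    linarith
  have hX1 : 1 ≤ ⌊Real.log (x : ℝ) ^ C⌋₊ := Nat.le_floor (by
    rw [Nat.cast_one]
    exact one_le_pow₀ hΛ.le)
  have h1 := bd_count T ⌊Real.log (x : ℝ) ^ C⌋₊ hX1 (fun r hr => ⟨(hT r hr).1, Nat.le_floor (hT r hr).2⟩) G hG
  rw [hl] at h1
  apply Nat.le_floor
  have h2 : (2 : ℝ) ^ G.card ≤ (Real.log (x : ℝ) ^ C) ^ (l + l ^ 2) := by
    have h3 : (2 : ℝ) ^ G.card ≤ ((⌊Real.log (x : ℝ) ^ C⌋₊ : ℕ) : ℝ) ^ (l + l ^ 2) := by exact_mod_cast h1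
    refine h3.trans ?_
    exact pow_le_pow_left₀ (Nat.cast_nonneg _) (Nat.floor_le (by positivity)) _
  have h3 := Real.log_le_log (by positivity) h2
  rw [Real.log_pow, Real.log_pow, Real.log_pow] at h3
  have h4 := Real.log_two_gt_d9
  have h5 : (G.card : ℝ) * (1 / 2) ≤ G.card * Real.log 2 :=
    mul_le_mul_of_nonneg_left (by linarith) (Nat.cast_nonneg _)
  push_cast at h3
  have h6 : ((l : ℝ) + l ^ 2) * (C * u) = ((l : ℝ) + l ^ 2) * C * u := by ring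
  linarith

end Pool.Agent.D0H24.UT
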